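import Pool.Agent.H96.CN.LOCOdd

/-!
# Module LOP of the board `cna_modules`: the means at all small primes together
-/

set_option autoImplicit false

open scoped Real

namespace Pool.Agent.H96.CN

open Pool.Agent.H31.CN

/-! ### The Chinese remainder theorem for means -/

lemma sum_block (a b : ℕ) (H : ℕ → ℝ) :
    ∑ k ∈ Finset.range (a * b), H k = ∑ i ∈ Finset.range a, ∑ r ∈ Finset.range b, H (i * b + r) := by
  induction a with
  | zero => simp
  | succ a ih =>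
    rw [Nat.succ_mul, Finset.sum_range_add, ih, Finset.sum_range_succ]

lemma sum_crt (a b : ℕ) (ha : 0 < a) (hab : Nat.Coprime a b) (F G : ℤ → ℝ) (hF : Per a F)
    (hG : Per b G) : ∑ k ∈ Finset.range (a * b), F (k : ℤ) * G (k : ℤ) =
      (∑ i ∈ Finset.range a, F (i : ℤ)) * ∑ r ∈ Finset.range b, G (r : ℤ) := by
  rw [sum_block a b (fun k => F (k : ℤ) * G (k : ℤ)), Finset.sum_comm]
  have h1 : ∀ r ∈ Finset.range b, ∑ i ∈ Finset.range a, F ((i * b + r : ℕ) : ℤ) *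
      G ((i * b + r : ℕ) : ℤ) = (∑ i ∈ Finset.range a, F (i : ℤ)) * G (r : ℤ) := by
    intro r _
    have h2 : ∀ i ∈ Finset.range a, F ((i * b + r : ℕ) : ℤ) * G ((i * b + r : ℕ) : ℤ) =
        F ((i * b + r : ℕ) : ℤ) * G (r : ℤ) := by
      intro i _
      rw [hG ((i * b + r : ℕ) : ℤ) r ⟨i, by push_cast; ring⟩]
    rw [Finset.sum_congr rfl h2, ← Finset.sum_mul]
    congr 1
    refine sum_crs a ha F hF (fun i => ((i * b + r : ℕ) : ℤ)) ?_
    intro i j hi hj h
    have h3 : (((i * b + r : ℕ) : ℤ)) - ((j * b + r : ℕ) : ℤ) = (b : ℤ) * ((i : ℤ) - j) := by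
      push_cast
      ring
    simp only [h3] at h
    have h4 : IsCoprime (a : ℤ) (b : ℤ) := Nat.isCoprime_iff_coprime.mpr hab
    exact eq_of_dvd_sub hi hj (h4.dvd_of_dvd_mul_left h)
  rw [Finset.sum_congr rfl h1, ← Finset.mul_sum]

/-- periodic in both variables -/
def Per2 (q : ℕ) (h : ℤ → ℤ → ℝ) : Prop :=
  ∀ B C B' C' : ℤ, (q : ℤ) ∣ B - B' → (q : ℤ) ∣ C - C' → h B C = h B' C'

/-- mean over both variables -/
noncomputable def Av (q : ℕ) (h : ℤ → ℤ → ℝ) : ℝ :=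
  (1 / (q : ℝ) ^ 2) * ∑ B ∈ Finset.range q, ∑ C ∈ Finset.range q, h B C

lemma Av_crt (a b : ℕ) (ha : 0 < a) (hab : Nat.Coprime a b) (f g : ℤ → ℤ → ℝ) (hf : Per2 a f)
    (hg : Per2 b g) : Av (a * b) (fun B C => f B C * g B C) = Av a f * Av b g := by
  unfold Av
  have h1 : ∀ B ∈ Finset.range (a * b), ∑ C ∈ Finset.range (a * b), f B C * g B C =
      (∑ C ∈ Finset.range a, f B C) * ∑ C ∈ Finset.range b, g B C := by
    intro B _
    exact sum_crt a b ha hab (fun C => f B C) (fun C => g B C)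
      (fun C C' h => hf _ _ _ _ (by simp) h) (fun C C' h => hg _ _ _ _ (by simp) h)
  rw [Finset.sum_congr rfl h1]
  have h2 := sum_crt a b ha hab (fun B => ∑ C ∈ Finset.range a, f B C)
    (fun B => ∑ C ∈ Finset.range b, g B C)
    (fun B B' h => Finset.sum_congr rfl fun C _ => hf _ _ _ _ h (by simp))
    (fun B B' h => Finset.sum_congr rfl fun C _ => hg _ _ _ _ h (by simp))
  rw [h2]
  push_cast
  rw [mul_pow, one_div, mul_inv, one_div, one_div]
  ring

lemma Per2_mul {q r : ℕ} {f g : ℤ → ℤ → ℝ} (hf : Per2 q f) (hg : Per2 r g) :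
    Per2 (q * r) (fun B C => f B C * g B C) := by
  intro B C B' C' h1 h2
  have e1 : (q : ℤ) ∣ ((q * r : ℕ) : ℤ) := ⟨r, by push_cast; ring⟩
  have e2 : (r : ℤ) ∣ ((q * r : ℕ) : ℤ) := ⟨q, by push_cast; ring⟩
  simp only
  rw [hf _ _ _ _ (e1.trans h1) (e1.trans h2), hg _ _ _ _ (e2.trans h1) (e2.trans h2)]

lemma Av_prod (S : Finset ℕ) (q : ℕ → ℕ) (hq : ∀ p ∈ S, 0 < q p)
    (hc : ∀ p ∈ S, ∀ r ∈ S, p ≠ r → Nat.Coprime (q p) (q r)) (h : ℕ → ℤ → ℤ → ℝ)
    (hh : ∀ p ∈ S, Per2 (q p) (h p)) :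
    Av (∏ p ∈ S, q p) (fun B C => ∏ p ∈ S, h p B C) = ∏ p ∈ S, Av (q p) (h p) ∧
      Per2 (∏ p ∈ S, q p) (fun B C => ∏ p ∈ S, h p B C) := by
  classical
  induction S using Finset.induction_on with
  | empty =>
    constructor
    · simp [Av]
    · intro B C B' C' _ _
      simp
  | insert a S ha ih =>
    have ih' := ih (fun p hp => hq p (Finset.mem_insert_of_mem hp))
      (fun p hp r hr => hc p (Finset.mem_insert_of_mem hp) r (Finset.mem_insert_of_mem hr))
      (fun p hp => hh p (Finset.mem_insert_of_mem hp))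
    simp only [Finset.prod_insert ha]
    constructor
    · rw [Av_crt _ _ (hq a (Finset.mem_insert_self a S)) _ _ _
        (hh a (Finset.mem_insert_self a S)) ih'.2, ih'.1]
      refine Nat.Coprime.prod_right fun r hr => ?_
      refine hc a (Finset.mem_insert_self a S) r (Finset.mem_insert_of_mem hr) ?_
      rintro rfl
      exact ha hr
    · exact Per2_mul (hh a (Finset.mem_insert_self a S)) ih'.2

/-! ### Periodicity of the local weights -/

lemma nrt_congr (q : ℕ) {A A' B B' C C' : ℤ} (hA : (q : ℤ) ∣ A - A') (hB : (q : ℤ) ∣ B - B')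
    (hC : (q : ℤ) ∣ C - C') : nrt q A B C = nrt q A' B' C' := by
  unfold nrt
  congr 1
  refine Finset.filter_congr fun j _ => ?_
  refine dvd_iff_of_sub ?_
  have e : A * (j : ℤ) ^ 2 + B * j + C - (A' * (j : ℤ) ^ 2 + B' * j + C') =
      (A - A') * (j : ℤ) ^ 2 + (B - B') * j + (C - C') := by ring
  rw [e]
  exact dvd_add (dvd_add (Dvd.dvd.mul_right hA _) (Dvd.dvd.mul_right hB _)) hC

lemma wl_per (p : ℕ) (hp : p.Prime) (t e A : ℕ) : Per2 (ql p) (wl p t e A) := by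
  intro B C B' C' hB hC
  have hdel : ∀ m : ℤ, m ∣ B - B' → m ∣ C - C' →
      m ∣ (4 * (A : ℤ) * C - B ^ 2) - (4 * (A : ℤ) * C' - B' ^ 2) := by
    intro m h1 h2
    have e : (4 * (A : ℤ) * C - B ^ 2) - (4 * (A : ℤ) * C' - B' ^ 2) =
        (C - C') * (4 * A) - (B - B') * (B + B') := by ring
    rw [e]
    exact dvd_sub (Dvd.dvd.mul_right h2 _) (Dvd.dvd.mul_right h1 _)
  have hp2 : ((p ^ 2 : ℕ) : ℤ) ∣ (ql p : ℤ) := by
    unfold ql
    split_ifs with h
    · subst h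
      norm_num
    · exact dvd_rfl
  have hp1 : (p : ℤ) ∣ ((p ^ 2 : ℕ) : ℤ) := ⟨p, by push_cast; ring⟩
  have hB2 := hp2.trans hB
  have hC2 := hp2.trans hC
  have hB1 := hp1.trans hB2
  have hC1 := hp1.trans hC2
  have hchi : chi p (4 * (A : ℤ) * C - B ^ 2) = chi p (4 * (A : ℤ) * C' - B' ^ 2) := by
    by_cases h : p = 2
    · subst h
      have h8 : (8 : ℤ) ∣ (ql 2 : ℤ) := by
        unfold ql
        norm_num
      have h3 := hdel 8 (h8.trans hB) (h8.trans hC)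
      unfold chi
      rw [if_pos rfl, if_pos rfl]
      have h4 : (4 * (A : ℤ) * C - B ^ 2) % 8 = (4 * (A : ℤ) * C' - B' ^ 2) % 8 :=
        (Int.emod_emod_of_dvd _ dvd_rfl).symm.trans (by
          rw [Int.emod_emod_of_dvd _ dvd_rfl]
          exact (Int.emod_emod_of_dvd _ dvd_rfl).symm.trans (by omega))
      rw [h4]
    · have : Fact p.Prime := ⟨hp⟩
      exact chi_per p h (hdel _ hB1 hC1)
  have hn1 : nrt p A B C = nrt p A B' C' := nrt_congr p (by simp) hB1 hC1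
  have hn2 : nrt (p ^ 2) A B C = nrt (p ^ 2) A B' C' := nrt_congr _ (by simp) hB2 hC2
  have hn3 : nrt p ((A / p : ℕ) : ℤ) B (p * C) = nrt p ((A / p : ℕ) : ℤ) B' (p * C') :=
    nrt_congr p (by simp) hB1 (by
      rw [← mul_sub]
      exact Dvd.intro _ rfl)
  have hcond : (if p = 2 then (4 * (A : ℤ) * C - B ^ 2) % 4 = 3 else
      ¬ ((p : ℤ) ^ 2 ∣ 4 * (A : ℤ) * C - B ^ 2)) ↔
      (if p = 2 then (4 * (A : ℤ) * C' - B' ^ 2) % 4 = 3 else
      ¬ ((p : ℤ) ^ 2 ∣ 4 * (A : ℤ) * C' - B' ^ 2)) := by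
    by_cases h : p = 2
    · rw [if_pos h, if_pos h]
      subst h
      have h4 : (4 : ℤ) ∣ (ql 2 : ℤ) := by
        unfold ql
        norm_num
      have h3 := hdel 4 (h4.trans hB) (h4.trans hC)
      omega
    · rw [if_neg h, if_neg h]
      have h3 := hdel _ hB2 hC2
      have hps : ((p ^ 2 : ℕ) : ℤ) = (p : ℤ) ^ 2 := by push_cast; rfl
      rw [hps] at h3
      rw [dvd_iff_of_sub h3]
  unfold wl N1 N2
  rw [hchi, hn1, hn2, hn3]
  by_cases h : (if p = 2 then (4 * (A : ℤ) * C - B ^ 2) % 4 = 3 else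
      ¬ ((p : ℤ) ^ 2 ∣ 4 * (A : ℤ) * C - B ^ 2))
  · rw [if_pos h, if_pos (hcond.mp h)]
  · rw [if_neg h, if_neg (fun h' => h (hcond.mpr h'))]

/-! ### The weight as a product -/

lemma wN_eq (N : ℕ) (hN : 1 ≤ N) (hN2 : 2 ∣ N) (n₁ n₂ : ℕ) (h₁ : n₁ ∣ N) (h₂ : n₂ ∣ N)
    (e A : ℕ) (B C : ℤ) : wN N n₁ n₂ e A B C =
    ∏ p ∈ N.primeFactors, wl p ((if p ∣ n₁ then 1 else 0) + (if p ∣ n₂ then 1 else 0)) e A B C := by
  have hN0 : N ≠ 0 := by omega
  have hn₁ : n₁ ≠ 0 := fun h => hN0 (by rw [h] at h₁; exact Nat.eq_zero_of_zero_dvd h₁)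
  have hn₂ : n₂ ≠ 0 := fun h => hN0 (by rw [h] at h₂; exact Nat.eq_zero_of_zero_dvd h₂)
  unfold wN
  by_cases hg : good N (4 * A * C - B ^ 2)
  · rw [if_pos hg]
    have hsub : (n₁ * n₂).primeFactors = N.primeFactors.filter (fun p => p ∣ n₁ * n₂) := by
      ext p
      rw [Finset.mem_filter, Nat.mem_primeFactors, Nat.mem_primeFactors]
      constructor
      · rintro ⟨hp, hd, _⟩
        refine ⟨⟨hp, ?_, hN0⟩, hd⟩
        rcases (Nat.Prime.dvd_mul hp).mp hd with h | h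
        · exact h.trans h₁
        · exact h.trans h₂
      · rintro ⟨⟨hp, _, _⟩, hd⟩
        exact ⟨hp, hd, mul_ne_zero hn₁ hn₂⟩
    unfold an Nw
    rw [hsub, Finset.prod_filter]
    push_cast
    rw [← Finset.prod_mul_distrib, ← Finset.prod_mul_distrib]
    refine Finset.prod_congr rfl fun p hp => ?_
    have hpp := Nat.prime_of_mem_primeFactors hp
    have hcond : (if p = 2 then (4 * (A : ℤ) * C - B ^ 2) % 4 = 3 else
        ¬ ((p : ℤ) ^ 2 ∣ 4 * (A : ℤ) * C - B ^ 2)) := by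
      by_cases h : p = 2
      · rw [if_pos h]
        have := hg.1
        omega
      · rw [if_neg h]
        exact hg.2 p hp h
    unfold wl
    rw [if_pos hcond]
    by_cases h1 : p ∣ n₁
    · have h3 : p ∣ n₁ * n₂ := Dvd.dvd.mul_right h1 _
      by_cases h2 : p ∣ n₂
      · simp [h1, h2, h3]
      · simp [h1, h2, h3]
    · by_cases h2 : p ∣ n₂
      · have h3 : p ∣ n₁ * n₂ := Dvd.dvd.mul_left h2 _
        simp [h1, h2, h3]
      · have h3 : ¬ p ∣ n₁ * n₂ := by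
          intro h
          rcases (Nat.Prime.dvd_mul hpp).mp h with h | h
          · exact h1 h
          · exact h2 h
        simp [h1, h2, h3]
        ring
  · rw [if_neg hg]
    have hex : ∃ p ∈ N.primeFactors, ¬ (if p = 2 then (4 * (A : ℤ) * C - B ^ 2) % 4 = 3 else
        ¬ ((p : ℤ) ^ 2 ∣ 4 * (A : ℤ) * C - B ^ 2)) := by
      by_contra hcon
      push Not at hcon
      apply hg
      constructor
      · have := hcon 2 (Nat.mem_primeFactors.mpr ⟨Nat.prime_two, hN2, hN0⟩)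
        rw [if_pos rfl] at this
        exact this
      · intro p hp h2
        have := hcon p hp
        rw [if_neg h2] at this
        exact this
    obtain ⟨p, hp, hc⟩ := hex
    symm
    refine Finset.prod_eq_zero hp ?_
    unfold wl
    rw [if_neg hc]

lemma prod_ql (N : ℕ) (hN : 1 ≤ N) (hN2 : 2 ∣ N) (hsq : Squarefree N) :
    ∏ p ∈ N.primeFactors, ql p = 8 * N ^ 2 := by
  have h1 : ∀ p ∈ N.primeFactors, ql p = (if p = 2 then 8 else 1) * p ^ 2 := by
    intro p _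
    unfold ql
    split_ifs with h
    · subst h
      norm_num
    · rw [one_mul]
  have hN0 : N ≠ 0 := by omega
  rw [Finset.prod_congr rfl h1, Finset.prod_mul_distrib, Finset.prod_pow,
    Nat.prod_primeFactors_of_squarefree hsq, Finset.prod_ite_eq']
  rw [if_pos (Nat.mem_primeFactors.mpr ⟨Nat.prime_two, hN2, hN0⟩)]

lemma ql_coprime {p r : ℕ} (hp : p.Prime) (hr : r.Prime) (h : p ≠ r) :
    Nat.Coprime (ql p) (ql r) := by
  have h1 : ∀ s : ℕ, s.Prime → ∃ n, ql s = s ^ n := by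
    intro s _
    unfold ql
    split_ifs with h
    · subst h
      exact ⟨5, by norm_num⟩
    · exact ⟨2, rfl⟩
  obtain ⟨n, hn⟩ := h1 p hp
  obtain ⟨m, hm⟩ := h1 r hr
  rw [hn, hm]
  exact Nat.Coprime.pow n m ((Nat.coprime_primes hp hr).mpr h)

lemma ql_pos {p : ℕ} (hp : p.Prime) : 0 < ql p := by
  unfold ql
  split_ifs
  · norm_num
  · exact pow_pos hp.pos 2

theorem pf_LOP : T_LOP := by
  intro N hN hN2 hsq n₁ n₂ h₁ h₂ e A he hA
  have h := (Av_prod N.primeFactors ql (fun p hp => ql_pos (Nat.prime_of_mem_primeFactors hp))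
    (fun p hp r hr hpr => ql_coprime (Nat.prime_of_mem_primeFactors hp)
      (Nat.prime_of_mem_primeFactors hr) hpr)
    (fun p => wl p ((if p ∣ n₁ then 1 else 0) + (if p ∣ n₂ then 1 else 0)) e A)
    (fun p hp => wl_per p (Nat.prime_of_mem_primeFactors hp) _ e A)).1
  rw [prod_ql N hN hN2 hsq] at h
  unfold wbar
  have h3 : ∀ B C : ℤ, wN N n₁ n₂ e A B C = ∏ p ∈ N.primeFactors,
      wl p ((if p ∣ n₁ then 1 else 0) + (if p ∣ n₂ then 1 else 0)) e A B C :=
    fun B C => wN_eq N hN hN2 n₁ n₂ h₁ h₂ e A B C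
  simp only [h3]
  exact h

end Pool.Agent.H96.CN
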