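import Pool.Agent.H96.CN.LOCTwo

/-!
# Module LOC of the board `cna_modules`: the local means at a small prime
-/

set_option autoImplicit false

open scoped Real

namespace Pool.Agent.H96.CN

open Pool.Agent.H31.CN

lemma kk_cases (p A : ℕ) : (kk p A = 0 ∧ ¬ p ∣ A) ∨ (kk p A = 1 ∧ p ∣ A ∧ ¬ p ^ 2 ∣ A) ∨
    (kk p A = 2 ∧ p ∣ A ∧ p ^ 2 ∣ A) := by
  unfold kk
  by_cases h2 : p ^ 2 ∣ A
  · have h1 : p ∣ A := (dvd_pow_self p (by norm_num)).trans h2
    simp [h2, h1]
  · by_cases h1 : p ∣ A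
    · simp [h2, h1]
    · simp [h2, h1]

theorem pf_LOC : T_LOC := by
  intro p hp
  by_cases h2 : p = 2
  · subst h2
    obtain ⟨f, hf1, hf2⟩ := assemble 2 hp (1 / 2) (1 / 2) 1024 (by norm_num) (fun _ => 1 / 2)
      (fun k => if k = 0 then 0 else 1 / 2) (fun _ => 1 / 2) (fun k => if k = 1 then 1 else 1 / 2)
      (by unfold ql; rw [if_pos rfl]; norm_num) (by norm_num)
      (fun A _ => by rw [T_two']; norm_num)
      (fun A _ => by
        rcases kk_cases 2 A with ⟨h, h1⟩ | ⟨h, h1, _⟩ | ⟨h, h1, _⟩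
        · rw [X1_odd A h1, h]; norm_num
        · rw [X1_even A h1, h]; norm_num
        · rw [X1_even A h1, h]; norm_num)
      (fun A _ => by rw [X2_two]; norm_num)
      (fun A _ => by rw [R_two]; norm_num)
      (fun A _ => by rw [RX_two]; norm_num)
      (fun A _ hA => by
        obtain ⟨A', rfl⟩ := hA
        push_cast
        have h3 := Rp_two A'
        push_cast at h3
        rw [h3]
        rcases kk_cases 2 (2 * A') with ⟨h, h1⟩ | ⟨h, _, h1⟩ | ⟨h, _, h1⟩
        · exact absurd (Dvd.intro _ rfl) h1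
        · rw [h, if_neg]
          · norm_num
          · intro h4
            exact h1 (by rw [sq]; exact Nat.mul_dvd_mul_left 2 h4)
        · rw [h, if_pos]
          · norm_num
          · rw [sq] at h1
            exact Nat.dvd_of_mul_dvd_mul_left (by norm_num) h1)
      (fun A _ => by
        have h3 := R2_two A
        rw [h3]
        norm_num)
    refine ⟨f, hf1, ?_⟩
    rw [hf2]
    norm_num
  · have : Fact p.Prime := ⟨hp⟩
    have hp0 : (p : ℝ) ≠ 0 := by exact_mod_cast hp.ne_zero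
    have hmul : ∀ A' : ℕ, p ^ 2 ∣ p * A' ↔ p ∣ A' := by
      intro A'
      rw [sq]
      exact Nat.mul_dvd_mul_iff_left hp.pos
    obtain ⟨f, hf1, hf2⟩ := assemble p hp (1 / p) (1 - 1 / p) ((p : ℝ) ^ 4) rfl
      (fun k => if k = 2 then 1 - 1 / (p : ℝ) else 1 - (1 / (p : ℝ)) ^ 2)
      (fun k => if k = 0 then 0 else 1 - 1 / (p : ℝ))
      (fun k => if k = 0 then (1 - 1 / (p : ℝ)) + 1 / p * (1 - 1 / p) else 1 - 1 / (p : ℝ))
      (fun k => if k = 1 then (1 - 1 / (p : ℝ)) * (2 + 1 / p) else 1 - 1 / (p : ℝ))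
      (by unfold ql; rw [if_neg h2]; push_cast; ring) (pow_ne_zero _ hp0)
      (fun A _ => by
        rcases kk_cases p A with ⟨h, h1⟩ | ⟨h, h1, h3⟩ | ⟨h, h1, h3⟩
        · rw [T_zero p h2 A h1, h, if_neg (by norm_num)]; field_simp
        · rw [T_one p h2 A h1 h3, h, if_neg (by norm_num)]; field_simp
        · rw [T_two p h2 A h3, h, if_pos rfl]; field_simp)
      (fun A _ => by
        rcases kk_cases p A with ⟨h, h1⟩ | ⟨h, h1, h3⟩ | ⟨h, h1, h3⟩
        · rw [X1_zero p h2 A h1, h, if_pos rfl]; ring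
        · rw [X1_pos p h2 A h1, h, if_neg (by norm_num)]; field_simp
        · rw [X1_pos p h2 A h1, h, if_neg (by norm_num)]; field_simp)
      (fun A _ => by
        rcases kk_cases p A with ⟨h, h1⟩ | ⟨h, h1, h3⟩ | ⟨h, h1, h3⟩
        · rw [X2_zero p h2 A h1]; field_simp
        · rw [X2_pos p h2 A h1]; field_simp
        · rw [X2_pos p h2 A h1]; field_simp)
      (fun A _ => by
        rcases kk_cases p A with ⟨h, h1⟩ | ⟨h, h1, h3⟩ | ⟨h, h1, h3⟩
        · rw [R_odd p h2 A, h, if_pos rfl, if_neg h1]; field_simp; ring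
        · rw [R_odd p h2 A, h, if_pos h1, if_neg (by norm_num)]; field_simp; ring
        · rw [R_odd p h2 A, h, if_pos h1, if_neg (by norm_num)]; field_simp; ring)
      (fun A _ => by rw [RX_odd p h2 A]; field_simp)
      (fun A _ hA => by
        obtain ⟨A', rfl⟩ := hA
        rw [Rp_odd p h2 A']
        rcases kk_cases p (p * A') with ⟨h, h1⟩ | ⟨h, h1, h3⟩ | ⟨h, h1, h3⟩
        · exact absurd (Dvd.intro _ rfl) h1
        · rw [T_one p h2 _ h1 h3, h, if_pos rfl, if_neg (fun h4 => h3 ((hmul A').mpr h4))]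
          field_simp
          ring
        · rw [T_two p h2 _ h3, h, if_pos ((hmul A').mp h3), if_neg (by norm_num)]
          field_simp
          ring)
      (fun A _ => by rw [R2_odd p h2 A]; field_simp)
    refine ⟨f, hf1, ?_⟩
    rw [hf2, if_neg h2]
    norm_num
    ring

end Pool.Agent.H96.CN
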