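import Pool.Agent.H96.CN.LOCBase

/-!
# Module LOC of the board `cna_modules`: odd primes
-/

set_option autoImplicit false

open scoped Real

namespace Pool.Agent.H96.CN

open Pool.Agent.H31.CN

section

variable (p : ℕ) [hp : Fact p.Prime] (h2 : p ≠ 2)

include hp h2

lemma chi_odd (Δ : ℤ) : chi p Δ = legendreSym p (-Δ) := by
  unfold chi
  rw [if_neg h2]
  have h := legendreSym.card_sqrts p h2 (-Δ)
  have hc : nrt p 1 0 Δ = ({x : ZMod p | x ^ 2 = ((-Δ : ℤ) : ZMod p)}.toFinset).card := by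
    unfold nrt
    have hp0 : 0 < p := hp.out.pos
    have : NeZero p := ⟨hp0.ne'⟩
    refine Finset.card_bij (fun (i : ℕ) _ => (i : ZMod p)) ?_ ?_ ?_
    · intro i hi
      rw [Finset.mem_filter] at hi
      rw [Set.mem_toFinset]
      have h3 := hi.2
      have h4 := (ZMod.intCast_zmod_eq_zero_iff_dvd _ p).mpr h3
      push_cast at h4
      show ((i : ZMod p)) ^ 2 = ((-Δ : ℤ) : ZMod p)
      push_cast
      linear_combination h4
    · intro i hi j hj hij
      rw [Finset.mem_filter, Finset.mem_range] at hi hj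
      have h3 := (ZMod.natCast_eq_natCast_iff' i j p).mp hij
      rwa [Nat.mod_eq_of_lt hi.1, Nat.mod_eq_of_lt hj.1] at h3
    · intro z hz
      rw [Set.mem_toFinset] at hz
      have hz' : z ^ 2 = ((-Δ : ℤ) : ZMod p) := hz
      refine ⟨z.val, ?_, ?_⟩
      · rw [Finset.mem_filter, Finset.mem_range]
        refine ⟨ZMod.val_lt z, ?_⟩
        rw [← ZMod.intCast_zmod_eq_zero_iff_dvd]
        push_cast
        rw [ZMod.natCast_zmod_val, hz']
        push_cast
        ring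
      · exact ZMod.natCast_zmod_val z
  rw [hc]
  rw [h]
  ring

lemma chi_zero {Δ : ℤ} (h : (p : ℤ) ∣ Δ) : chi p Δ = 0 := by
  rw [chi_odd p h2, legendreSym.eq_zero_iff]
  rw [ZMod.intCast_zmod_eq_zero_iff_dvd]
  exact (dvd_neg).mpr h

lemma chi_per {Δ Δ' : ℤ} (h : (p : ℤ) ∣ Δ - Δ') : chi p Δ = chi p Δ' := by
  rw [chi_odd p h2, chi_odd p h2]
  unfold legendreSym
  have : ((-Δ : ℤ) : ZMod p) = ((-Δ' : ℤ) : ZMod p) := by
    have h3 := (ZMod.intCast_zmod_eq_zero_iff_dvd _ p).mpr h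
    push_cast at h3 ⊢
    linear_combination -h3
  rw [this]

lemma chi_one {Δ s : ℤ} (h : (p : ℤ) ∣ Δ + s ^ 2) (hs : ¬ (p : ℤ) ∣ s) : chi p Δ = 1 := by
  rw [chi_odd p h2]
  have h3 : legendreSym p (-Δ) = legendreSym p (s ^ 2) := by
    unfold legendreSym
    have : ((-Δ : ℤ) : ZMod p) = ((s ^ 2 : ℤ) : ZMod p) := by
      have h3 := (ZMod.intCast_zmod_eq_zero_iff_dvd _ p).mpr h
      push_cast at h3 ⊢
      linear_combination -h3
    rw [this]
  rw [h3]
  exact legendreSym.sq_one' p (by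
    rw [Ne, ZMod.intCast_zmod_eq_zero_iff_dvd]
    exact hs)

lemma chi_sq {Δ : ℤ} (h : ¬ (p : ℤ) ∣ Δ) : chi p Δ ^ 2 = 1 := by
  rw [chi_odd p h2]
  exact legendreSym.sq_one p (by
    rw [Ne, ZMod.intCast_zmod_eq_zero_iff_dvd, dvd_neg]
    exact h)

lemma chi_sum : ∑ i ∈ Finset.range p, (chi p (i : ℤ) : ℝ) = 0 := by
  have h1 : ∀ i ∈ Finset.range p, (chi p (i : ℤ) : ℝ) =
      (∑ j ∈ Finset.range p, if (p : ℤ) ∣ (i : ℤ) + (j : ℤ) ^ 2 then (1 : ℝ) else 0) - 1 := by
    intro i _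
    unfold chi
    rw [if_neg h2]
    unfold nrt
    rw [Finset.card_filter]
    push_cast
    congr 1
    refine Finset.sum_congr rfl fun j _ => ?_
    have : (1 : ℤ) * (j : ℤ) ^ 2 + 0 * j + i = i + (j : ℤ) ^ 2 := by ring
    rw [this]
  rw [Finset.sum_congr rfl h1, Finset.sum_sub_distrib, Finset.sum_comm]
  have h3 : ∀ j ∈ Finset.range p, (∑ i ∈ Finset.range p,
      if (p : ℤ) ∣ (i : ℤ) + (j : ℤ) ^ 2 then (1 : ℝ) else 0) = 1 := fun j _ =>
    sum_ind_self p hp.out.pos _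
  rw [Finset.sum_congr rfl h3]
  simp

omit hp in
lemma su_odd (h : ℤ → ℤ → ℝ) : su p h =
    ∑ B ∈ Finset.range (p * p), ∑ C ∈ Finset.range (p * p), h B C := by
  unfold su ql
  rw [if_neg h2, sq]

omit hp in
lemma gi_odd (A B C : ℤ) :
    gi p A B C = if (p : ℤ) ^ 2 ∣ 4 * A * C - B ^ 2 then 0 else 1 := by
  unfold gi
  by_cases h : (p : ℤ) ^ 2 ∣ 4 * A * C - B ^ 2
  · rw [if_pos h, if_neg (by rw [if_neg h2]; exact not_not.mpr h)]
  · rw [if_neg h, if_pos (by rw [if_neg h2]; exact h)]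

omit h2 in
lemma pprime : Prime (p : ℤ) := Nat.prime_iff_prime_int.mp hp.out

lemma not_dvd_two : ¬ (p : ℤ) ∣ 2 := by
  intro h
  have h3 : p ∣ 2 := by exact_mod_cast h
  exact h2 ((Nat.prime_dvd_prime_iff_eq hp.out Nat.prime_two).mp h3)

lemma not_dvd_four : ¬ (p : ℤ) ∣ 4 := by
  intro h
  have : (4 : ℤ) = 2 * 2 := by norm_num
  rw [this] at h
  rcases (pprime p).dvd_or_dvd h with h | h
  · exact not_dvd_two p h2 h
  · exact not_dvd_two p h2 h

omit hp h2 in
lemma psq : ((p * p : ℕ) : ℤ) = (p : ℤ) ^ 2 := by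
  push_cast
  ring

lemma crs_sum (A : ℕ) (hA : ¬ p ∣ A) (F : ℤ → ℝ) (hF : Per (p * p) F) (B : ℤ) :
    ∑ C ∈ Finset.range (p * p), F (4 * A * C - B ^ 2) = ∑ C ∈ Finset.range (p * p), F (C : ℤ) := by
  have hp0 : 0 < p := hp.out.pos
  refine sum_crs (p * p) (Nat.mul_pos hp0 hp0) F hF (fun C => 4 * (A : ℤ) * C - B ^ 2) ?_
  intro i j hi hj h
  have h3 : (4 * (A : ℤ) * i - B ^ 2) - (4 * (A : ℤ) * j - B ^ 2) = (4 * A) * ((i : ℤ) - j) := by
    ring
  simp only [h3] at h
  have h4 : IsCoprime ((p * p : ℕ) : ℤ) (4 * (A : ℤ)) := by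
    rw [psq]
    refine IsCoprime.pow_left ?_
    rw [Prime.coprime_iff_not_dvd (pprime p)]
    intro h5
    rcases (pprime p).dvd_or_dvd h5 with h5 | h5
    · exact not_dvd_four p h2 h5
    · exact hA (by exact_mod_cast h5)
  exact eq_of_dvd_sub hi hj (h4.dvd_of_dvd_mul_left h)

omit hp h2 in
lemma dvd_iff_of_sub {q a b : ℤ} (h : q ∣ a - b) : q ∣ a ↔ q ∣ b := by
  constructor
  · intro ha
    have := dvd_sub ha h
    simpa using this
  · intro hb
    have := dvd_add h hb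
    simpa using this

omit hp h2 in
lemma sum_ite (q n : ℕ) (hq : 0 < q) (c : ℤ) (a b : ℝ) :
    ∑ i ∈ Finset.range (n * q), (if (q : ℤ) ∣ (i : ℤ) + c then b else a) =
      n * b + (n * q - n) * a := by
  have h : ∀ i ∈ Finset.range (n * q), (if (q : ℤ) ∣ (i : ℤ) + c then b else a) =
      b * (if (q : ℤ) ∣ (i : ℤ) + c then (1 : ℝ) else 0) +
      a * (if ¬ (q : ℤ) ∣ (i : ℤ) + c then (1 : ℝ) else 0) := by
    intro i _
    split_ifs <;> simp_all
  rw [Finset.sum_congr rfl h, Finset.sum_add_distrib, ← Finset.mul_sum, ← Finset.mul_sum,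
    sum_ind q n hq c, sum_nind q n hq c]
  ring

omit hp h2 in
lemma sum_ite0 (q n : ℕ) (hq : 0 < q) (a b : ℝ) :
    ∑ i ∈ Finset.range (n * q), (if (q : ℤ) ∣ (i : ℤ) then b else a) =
      n * b + (n * q - n) * a := by
  rw [← sum_ite q n hq 0 a b]
  simp only [add_zero]

/-! #### `p` does not divide `A` -/

lemma T_zero (A : ℕ) (hA : ¬ p ∣ A) :
    su p (fun B C => gi p A B C) = (p : ℝ) ^ 2 * (p ^ 2 - 1) := by
  rw [su_odd p h2]
  have hp0 : 0 < p := hp.out.pos
  let F : ℤ → ℝ := fun z => if (p : ℤ) ^ 2 ∣ z then 0 else 1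
  have hF : Per (p * p) F := by
    intro a b h
    rw [psq] at h
    simp only [F, dvd_iff_of_sub h]
  have h1 : ∀ B ∈ Finset.range (p * p), ∑ C ∈ Finset.range (p * p), gi p A B C =
      (p : ℝ) ^ 2 - 1 := by
    intro B _
    simp only [gi_odd p h2]
    rw [crs_sum p h2 A hA F hF B]
    have h3 := sum_ite0 (p * p) 1 (Nat.mul_pos hp0 hp0) 1 0
    rw [one_mul, psq] at h3
    rw [h3]
    push_cast
    ring
  rw [Finset.sum_congr rfl h1]
  simp
  ring

lemma X1_zero (A : ℕ) (hA : ¬ p ∣ A) :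
    su p (fun B C => gi p A B C * ch p A B C) = 0 := by
  rw [su_odd p h2]
  have hp0 : 0 < p := hp.out.pos
  let F : ℤ → ℝ := fun z => (chi p z : ℝ)
  have hF : Per (p * p) F := by
    intro a b h
    rw [psq] at h
    simp only [F]
    rw [chi_per p h2 ((dvd_pow_self (p : ℤ) (by norm_num)).trans h)]
  have hF' : Per p F := by
    intro a b h
    simp only [F]
    rw [chi_per p h2 h]
  have h1 : ∀ B ∈ Finset.range (p * p), ∑ C ∈ Finset.range (p * p), gi p A B C * ch p A B C = 0 := by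
    intro B _
    have h4 : ∀ C ∈ Finset.range (p * p), gi p A B C * ch p A B C = F (4 * A * C - B ^ 2) := by
      intro C _
      rw [gi_odd p h2]
      unfold ch
      simp only [F]
      split_ifs with h
      · rw [chi_zero p h2 ((dvd_pow_self (p : ℤ) (by norm_num)).trans h)]
        simp
      · simp
    rw [Finset.sum_congr rfl h4, crs_sum p h2 A hA F hF B, sum_mult p p F hF']
    simp only [F]
    rw [chi_sum p h2, mul_zero]
  rw [Finset.sum_congr rfl h1]
  simp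

lemma X2_zero (A : ℕ) (hA : ¬ p ∣ A) :
    su p (fun B C => gi p A B C * ch p A B C ^ 2) = (p : ℝ) ^ 2 * (p ^ 2 - p) := by
  rw [su_odd p h2]
  have hp0 : 0 < p := hp.out.pos
  let F : ℤ → ℝ := fun z => if (p : ℤ) ∣ z then 0 else 1
  have hF : Per (p * p) F := by
    intro a b h
    rw [psq] at h
    simp only [F, dvd_iff_of_sub ((dvd_pow_self (p : ℤ) (by norm_num)).trans h)]
  have h1 : ∀ B ∈ Finset.range (p * p), ∑ C ∈ Finset.range (p * p),
      gi p A B C * ch p A B C ^ 2 = (p : ℝ) ^ 2 - p := by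
    intro B _
    have h4 : ∀ C ∈ Finset.range (p * p), gi p A B C * ch p A B C ^ 2 =
        F (4 * A * C - B ^ 2) := by
      intro C _
      rw [gi_odd p h2]
      unfold ch
      simp only [F]
      by_cases h : (p : ℤ) ∣ 4 * (A : ℤ) * C - (B : ℤ) ^ 2
      · rw [if_pos h, chi_zero p h2 h]
        simp
      · have h5 : ¬ (p : ℤ) ^ 2 ∣ 4 * (A : ℤ) * C - (B : ℤ) ^ 2 := fun h6 =>
          h ((dvd_pow_self (p : ℤ) (by norm_num)).trans h6)
        rw [if_neg h, if_neg h5, one_mul]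
        have h7 := chi_sq p h2 h
        exact_mod_cast h7
    rw [Finset.sum_congr rfl h4, crs_sum p h2 A hA F hF B]
    have h3 := sum_ite0 p p hp0 1 0
    rw [h3]
    ring
  rw [Finset.sum_congr rfl h1]
  simp
  ring

/-! #### `p` divides `A` -/

lemma gich (A : ℕ) (hA : p ∣ A) (B C : ℤ) :
    gi p A B C * ch p A B C = if (p : ℤ) ∣ B then 0 else 1 := by
  have hA' : (p : ℤ) ∣ (A : ℤ) := by exact_mod_cast hA
  have h4 : (p : ℤ) ∣ 4 * (A : ℤ) * C := Dvd.dvd.mul_right (Dvd.dvd.mul_left hA' 4) C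
  by_cases h : (p : ℤ) ∣ B
  · rw [if_pos h]
    unfold ch
    rw [chi_zero p h2 (dvd_sub h4 (dvd_pow h (by norm_num)))]
    simp
  · rw [if_neg h, gi_odd p h2]
    unfold ch
    rw [chi_one p h2 (s := B) (by
      have : 4 * (A : ℤ) * C - B ^ 2 + B ^ 2 = 4 * (A : ℤ) * C := by ring
      rw [this]
      exact h4) h]
    rw [if_neg]
    · simp
    · intro h5
      have h6 := (dvd_pow_self (p : ℤ) (by norm_num)).trans h5
      have h7 := (dvd_sub_right h4).mp h6
      exact h ((pprime p).dvd_of_dvd_pow h7)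

lemma gich2 (A : ℕ) (hA : p ∣ A) (B C : ℤ) :
    gi p A B C * ch p A B C ^ 2 = if (p : ℤ) ∣ B then 0 else 1 := by
  have hA' : (p : ℤ) ∣ (A : ℤ) := by exact_mod_cast hA
  have h4 : (p : ℤ) ∣ 4 * (A : ℤ) * C := Dvd.dvd.mul_right (Dvd.dvd.mul_left hA' 4) C
  rw [sq, ← mul_assoc, gich p h2 A hA]
  by_cases h : (p : ℤ) ∣ B
  · rw [if_pos h, zero_mul]
  · rw [if_neg h, one_mul]
    unfold ch
    rw [chi_one p h2 (s := B) (by
      have : 4 * (A : ℤ) * C - B ^ 2 + B ^ 2 = 4 * (A : ℤ) * C := by ring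
      rw [this]
      exact h4) h]
    simp

omit h2 in
lemma sum_B : ∑ B ∈ Finset.range (p * p), ∑ _C ∈ Finset.range (p * p),
    (if (p : ℤ) ∣ (B : ℤ) then (0 : ℝ) else 1) = (p : ℝ) ^ 2 * (p ^ 2 - p) := by
  simp only [Finset.sum_const, Finset.card_range, nsmul_eq_mul]
  rw [← Finset.mul_sum, sum_ite0 p p hp.out.pos]
  push_cast
  ring

lemma X1_pos (A : ℕ) (hA : p ∣ A) :
    su p (fun B C => gi p A B C * ch p A B C) = (p : ℝ) ^ 2 * (p ^ 2 - p) := by
  rw [su_odd p h2]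
  simp only [gich p h2 A hA]
  exact sum_B p

lemma X2_pos (A : ℕ) (hA : p ∣ A) :
    su p (fun B C => gi p A B C * ch p A B C ^ 2) = (p : ℝ) ^ 2 * (p ^ 2 - p) := by
  rw [su_odd p h2]
  simp only [gich2 p h2 A hA]
  exact sum_B p

lemma T_two (A : ℕ) (hA : p ^ 2 ∣ A) :
    su p (fun B C => gi p A B C) = (p : ℝ) ^ 2 * (p ^ 2 - p) := by
  rw [su_odd p h2, ← sum_B p]
  refine Finset.sum_congr rfl fun B _ => Finset.sum_congr rfl fun C _ => ?_
  have hA' : (p : ℤ) ^ 2 ∣ (A : ℤ) := by exact_mod_cast hA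
  have h4 : (p : ℤ) ^ 2 ∣ 4 * (A : ℤ) * C := Dvd.dvd.mul_right (Dvd.dvd.mul_left hA' 4) C
  rw [gi_odd p h2]
  by_cases h : (p : ℤ) ∣ (B : ℤ)
  · rw [if_pos h, if_pos (dvd_sub h4 (pow_dvd_pow_of_dvd h 2))]
  · rw [if_neg h, if_neg]
    intro h5
    have h7 := (dvd_sub_right h4).mp h5
    exact h ((pprime p).dvd_of_dvd_pow ((dvd_pow_self (p : ℤ) (by norm_num)).trans h7))

lemma T_one (A : ℕ) (hA : p ∣ A) (hA2 : ¬ p ^ 2 ∣ A) :
    su p (fun B C => gi p A B C) = (p : ℝ) ^ 2 * (p ^ 2 - 1) := by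
  obtain ⟨A', rfl⟩ := hA
  have hp0 : 0 < p := hp.out.pos
  have hA' : ¬ (p : ℤ) ∣ (A' : ℤ) := by
    intro h
    apply hA2
    rw [sq]
    exact Nat.mul_dvd_mul_left p (by exact_mod_cast h)
  rw [su_odd p h2]
  have h1 : ∀ B ∈ Finset.range (p * p), ∑ C ∈ Finset.range (p * p),
      gi p ((p * A' : ℕ) : ℤ) B C = if (p : ℤ) ∣ (B : ℤ) then (p : ℝ) ^ 2 - p else (p : ℝ) ^ 2 := by
    intro B _
    by_cases h : (p : ℤ) ∣ (B : ℤ)
    · rw [if_pos h]
      have h4 : ∀ C ∈ Finset.range (p * p), gi p ((p * A' : ℕ) : ℤ) B C =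
          if (p : ℤ) ∣ (C : ℤ) then 0 else 1 := by
        intro C _
        rw [gi_odd p h2]
        have h5 : (p : ℤ) ^ 2 ∣ 4 * ((p * A' : ℕ) : ℤ) * C - (B : ℤ) ^ 2 ↔ (p : ℤ) ∣ (C : ℤ) := by
          rw [dvd_sub_left (pow_dvd_pow_of_dvd h 2)]
          constructor
          · rintro ⟨t, ht⟩
            have h6 : (p : ℤ) ∣ 4 * A' * C := by
              refine ⟨t, ?_⟩
              have hpz : (p : ℤ) ≠ 0 := by exact_mod_cast hp0.ne'
              apply mul_left_cancel₀ hpz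
              push_cast at ht
              linear_combination ht
            rcases (pprime p).dvd_or_dvd h6 with h7 | h7
            · rcases (pprime p).dvd_or_dvd h7 with h8 | h8
              · exact absurd h8 (not_dvd_four p h2)
              · exact absurd h8 hA'
            · exact h7
          · rintro ⟨t, ht⟩
            refine ⟨4 * A' * t, ?_⟩
            rw [ht]
            push_cast
            ring
        simp only [h5]
      rw [Finset.sum_congr rfl h4, sum_ite0 p p hp0]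
      ring
    · rw [if_neg h]
      have h4 : ∀ C ∈ Finset.range (p * p), gi p ((p * A' : ℕ) : ℤ) B C = 1 := by
        intro C _
        rw [gi_odd p h2, if_neg]
        intro h5
        have h6 : (p : ℤ) ∣ 4 * ((p * A' : ℕ) : ℤ) * C := ⟨4 * A' * C, by push_cast; ring⟩
        have h7 := (dvd_sub_right h6).mp ((dvd_pow_self (p : ℤ) (by norm_num)).trans h5)
        exact h ((pprime p).dvd_of_dvd_pow h7)
      rw [Finset.sum_congr rfl h4]
      simp
      ring
  rw [Finset.sum_congr rfl h1, sum_ite0 p p hp0]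
  ring

/-! #### Sums over roots -/

omit hp h2 in
lemma nrt_cast (q : ℕ) (A B C : ℤ) : (nrt q A B C : ℝ) =
    ∑ j ∈ Finset.range q, if (q : ℤ) ∣ A * (j : ℤ) ^ 2 + B * (j : ℤ) + C then (1 : ℝ) else 0 := by
  unfold nrt
  rw [Finset.card_filter]
  push_cast
  rfl

omit hp h2 in
lemma swap3 (n m : ℕ) (F : ℕ → ℕ → ℕ → ℝ) :
    ∑ B ∈ Finset.range n, ∑ C ∈ Finset.range n, ∑ j ∈ Finset.range m, F B C j =
      ∑ j ∈ Finset.range m, ∑ B ∈ Finset.range n, ∑ C ∈ Finset.range n, F B C j := by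
  have h : ∀ B ∈ Finset.range n, ∑ C ∈ Finset.range n, ∑ j ∈ Finset.range m, F B C j =
      ∑ j ∈ Finset.range m, ∑ C ∈ Finset.range n, F B C j := fun B _ => Finset.sum_comm
  rw [Finset.sum_congr rfl h, Finset.sum_comm]

omit hp h2 in
lemma key_id (A B C j : ℤ) : 4 * A * C - B ^ 2 =
    4 * A * (A * j ^ 2 + B * j + C) - (B + 2 * A * j) ^ 2 := by ring

/-- no square factor if the root is simple -/
lemma gi_simple {A B C j : ℤ} (h : (p : ℤ) ∣ A * j ^ 2 + B * j + C)
    (hB : ¬ (p : ℤ) ∣ B + 2 * A * j) : gi p A B C = 1 ∧ ch p A B C = 1 := by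
  have h4 : (p : ℤ) ∣ 4 * A * (A * j ^ 2 + B * j + C) := Dvd.dvd.mul_left h _
  constructor
  · rw [gi_odd p h2, if_neg]
    intro h5
    rw [key_id A B C j] at h5
    have h7 := (dvd_sub_right h4).mp ((dvd_pow_self (p : ℤ) (by norm_num)).trans h5)
    exact hB ((pprime p).dvd_of_dvd_pow h7)
  · unfold ch
    rw [chi_one p h2 (s := B + 2 * A * j) _ hB]
    · simp
    · rw [key_id A B C j]
      have : 4 * A * (A * j ^ 2 + B * j + C) - (B + 2 * A * j) ^ 2 + (B + 2 * A * j) ^ 2 =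
        4 * A * (A * j ^ 2 + B * j + C) := by ring
      rw [this]
      exact h4

omit hp h2 in
lemma gi_zero_of (h2 : p ≠ 2) {A B C j : ℤ} (h : (p : ℤ) ^ 2 ∣ 4 * A * (A * j ^ 2 + B * j + C))
    (hB : (p : ℤ) ∣ B + 2 * A * j) : gi p A B C = 0 := by
  rw [gi_odd p h2, if_pos]
  rw [key_id A B C j]
  exact dvd_sub h (pow_dvd_pow_of_dvd hB 2)

lemma R_inner (A : ℕ) (B j : ℤ) : ∑ C ∈ Finset.range (p * p),
    gi p A B C * (if (p : ℤ) ∣ A * j ^ 2 + B * j + C then (1 : ℝ) else 0) =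
      if (p : ℤ) ∣ B + 2 * A * j then (if p ∣ A then 0 else (p : ℝ) - 1) else p := by
  have hp0 : 0 < p := hp.out.pos
  have hc : ∀ C : ℤ, (A : ℤ) * j ^ 2 + B * j + C = C + (A * j ^ 2 + B * j) := fun C => by ring
  by_cases hB : (p : ℤ) ∣ B + 2 * A * j
  · rw [if_pos hB]
    by_cases hA : p ∣ A
    · rw [if_pos hA]
      refine Finset.sum_eq_zero fun C _ => ?_
      by_cases h : (p : ℤ) ∣ A * j ^ 2 + B * j + C
      · have hA' : (p : ℤ) ∣ (A : ℤ) := by exact_mod_cast hA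
        rw [gi_zero_of p h2 (j := j) _ hB, zero_mul]
        rw [sq]
        exact mul_dvd_mul (Dvd.dvd.mul_left hA' 4) h
      · rw [if_neg h, mul_zero]
    · rw [if_neg hA]
      have h4 : ∀ C ∈ Finset.range (p * p), gi p A B C *
          (if (p : ℤ) ∣ A * j ^ 2 + B * j + C then (1 : ℝ) else 0) =
          (if (p : ℤ) ∣ C + (A * j ^ 2 + B * j) then (1 : ℝ) else 0) -
          (if ((p * p : ℕ) : ℤ) ∣ C + (A * j ^ 2 + B * j) then (1 : ℝ) else 0) := by
        intro C _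
        rw [hc, psq]
        by_cases h : (p : ℤ) ∣ C + (A * j ^ 2 + B * j)
        · by_cases h' : (p : ℤ) ^ 2 ∣ C + (A * j ^ 2 + B * j)
          · rw [if_pos h, if_pos h', gi_zero_of p h2 (j := j) _ hB]
            · simp
            · rw [hc]
              exact Dvd.dvd.mul_left h' _
          · rw [if_pos h, if_neg h', gi_odd p h2, if_neg]
            · simp
            · intro h5
              rw [key_id A B C j, hc] at h5
              have h6 := (dvd_sub_left (pow_dvd_pow_of_dvd hB 2)).mp h5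
              have h7 : IsCoprime ((p : ℤ) ^ 2) (4 * (A : ℤ)) := by
                refine IsCoprime.pow_left ?_
                rw [Prime.coprime_iff_not_dvd (pprime p)]
                intro h8
                rcases (pprime p).dvd_or_dvd h8 with h8 | h8
                · exact not_dvd_four p h2 h8
                · exact hA (by exact_mod_cast h8)
              exact h' (h7.dvd_of_dvd_mul_left h6)
        · have h' : ¬ (p : ℤ) ^ 2 ∣ C + (A * j ^ 2 + B * j) := fun h5 =>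
            h ((dvd_pow_self (p : ℤ) (by norm_num)).trans h5)
          rw [if_neg h, if_neg h']
          simp
      rw [Finset.sum_congr rfl h4, Finset.sum_sub_distrib, sum_ind p p hp0]
      rw [sum_ind_self (p * p) (Nat.mul_pos hp0 hp0)]
  · rw [if_neg hB, ← sum_ind p p hp0 (A * j ^ 2 + B * j)]
    refine Finset.sum_congr rfl fun C _ => ?_
    rw [hc]
    by_cases h : (p : ℤ) ∣ C + (A * j ^ 2 + B * j)
    · rw [(gi_simple p h2 (by rw [hc]; exact h) hB).1, one_mul]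
    · rw [if_neg h, mul_zero]

lemma RX_inner (A : ℕ) (B j : ℤ) : ∑ C ∈ Finset.range (p * p),
    gi p A B C * ch p A B C * (if (p : ℤ) ∣ A * j ^ 2 + B * j + C then (1 : ℝ) else 0) =
      if (p : ℤ) ∣ B + 2 * A * j then 0 else (p : ℝ) := by
  have hp0 : 0 < p := hp.out.pos
  have hc : ∀ C : ℤ, (A : ℤ) * j ^ 2 + B * j + C = C + (A * j ^ 2 + B * j) := fun C => by ring
  by_cases hB : (p : ℤ) ∣ B + 2 * A * j
  · rw [if_pos hB]
    refine Finset.sum_eq_zero fun C _ => ?_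
    by_cases h : (p : ℤ) ∣ A * j ^ 2 + B * j + C
    · unfold ch
      rw [chi_zero p h2]
      · simp
      · rw [key_id A B C j]
        exact dvd_sub (Dvd.dvd.mul_left h _) (dvd_pow hB (by norm_num))
    · rw [if_neg h, mul_zero]
  · rw [if_neg hB, ← sum_ind p p hp0 (A * j ^ 2 + B * j)]
    refine Finset.sum_congr rfl fun C _ => ?_
    rw [hc]
    by_cases h : (p : ℤ) ∣ C + (A * j ^ 2 + B * j)
    · have h3 := gi_simple p h2 (by rw [hc]; exact h) hB
      rw [h3.1, h3.2, one_mul, one_mul]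
    · rw [if_neg h, mul_zero]

lemma R2_inner (A : ℕ) (B j : ℤ) : ∑ C ∈ Finset.range (p * p),
    gi p A B C * (if ((p ^ 2 : ℕ) : ℤ) ∣ A * j ^ 2 + B * j + C then (1 : ℝ) else 0) =
      if (p : ℤ) ∣ B + 2 * A * j then 0 else 1 := by
  have hp0 : 0 < p := hp.out.pos
  have hc : ∀ C : ℤ, (A : ℤ) * j ^ 2 + B * j + C = C + (A * j ^ 2 + B * j) := fun C => by ring
  have hps : ((p ^ 2 : ℕ) : ℤ) = (p : ℤ) ^ 2 := by push_cast; rfl
  by_cases hB : (p : ℤ) ∣ B + 2 * A * j
  · rw [if_pos hB]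
    refine Finset.sum_eq_zero fun C _ => ?_
    by_cases h : ((p ^ 2 : ℕ) : ℤ) ∣ A * j ^ 2 + B * j + C
    · rw [gi_zero_of p h2 (j := j) _ hB, zero_mul]
      rw [hps] at h
      exact Dvd.dvd.mul_left h _
    · rw [if_neg h, mul_zero]
  · rw [if_neg hB]
    refine (Finset.sum_congr rfl fun C _ => ?_).trans
      (sum_ind_self (p * p) (Nat.mul_pos hp0 hp0) (A * j ^ 2 + B * j))
    rw [hc, psq, hps]
    by_cases h : (p : ℤ) ^ 2 ∣ C + (A * j ^ 2 + B * j)
    · rw [(gi_simple p h2 (by rw [hc]; exact (dvd_pow_self (p : ℤ) (by norm_num)).trans h) hB).1,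
        one_mul]
    · rw [if_neg h, mul_zero]

lemma R_odd (A : ℕ) : su p (fun B C => gi p A B C * nrt p A B C) =
    (p : ℝ) * (p * (if p ∣ A then 0 else (p : ℝ) - 1) + (p * p - p) * p) := by
  have hp0 : 0 < p := hp.out.pos
  rw [su_odd p h2]
  simp only [nrt_cast, Finset.mul_sum]
  rw [swap3]
  simp only [R_inner p h2]
  have h1 : ∀ j ∈ Finset.range p, ∑ B ∈ Finset.range (p * p),
      (if (p : ℤ) ∣ (B : ℤ) + 2 * A * j then (if p ∣ A then 0 else (p : ℝ) - 1) else (p : ℝ)) =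
      p * (if p ∣ A then 0 else (p : ℝ) - 1) + (p * p - p) * p := fun j _ =>
    sum_ite p p hp0 (2 * A * j) p (if p ∣ A then 0 else (p : ℝ) - 1)
  rw [Finset.sum_congr rfl h1, Finset.sum_const, Finset.card_range, nsmul_eq_mul]

lemma RX_odd (A : ℕ) : su p (fun B C => gi p A B C * ch p A B C * nrt p A B C) =
    (p : ℝ) * ((p * p - p) * p) := by
  have hp0 : 0 < p := hp.out.pos
  rw [su_odd p h2]
  simp only [nrt_cast, Finset.mul_sum]
  rw [swap3]
  simp only [RX_inner p h2]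
  have h1 : ∀ j ∈ Finset.range p, ∑ B ∈ Finset.range (p * p),
      (if (p : ℤ) ∣ (B : ℤ) + 2 * A * j then (0 : ℝ) else (p : ℝ)) =
      p * 0 + (p * p - p) * p := fun j _ =>
    sum_ite p p hp0 (2 * A * j) p 0
  rw [Finset.sum_congr rfl h1, Finset.sum_const, Finset.card_range, nsmul_eq_mul]
  ring

lemma R2_odd (A : ℕ) : su p (fun B C => gi p A B C * nrt (p ^ 2) A B C) =
    (p : ℝ) ^ 2 * (p * p - p) := by
  have hp0 : 0 < p := hp.out.pos
  rw [su_odd p h2]
  simp only [nrt_cast, Finset.mul_sum]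
  rw [swap3]
  simp only [R2_inner p h2]
  have h1 : ∀ j ∈ Finset.range (p ^ 2), ∑ B ∈ Finset.range (p * p),
      (if (p : ℤ) ∣ (B : ℤ) + 2 * A * j then (0 : ℝ) else 1) =
      p * 0 + (p * p - p) * 1 := fun j _ =>
    sum_ite p p hp0 (2 * A * j) 1 0
  rw [Finset.sum_congr rfl h1, Finset.sum_const, Finset.card_range, nsmul_eq_mul]
  push_cast
  ring

lemma Rp_odd (A' : ℕ) : su p (fun B C => gi p ((p * A' : ℕ) : ℤ) B C *
      nrt p ((p * A' / p : ℕ) : ℤ) B (p * C)) =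
    su p (fun B C => gi p ((p * A' : ℕ) : ℤ) B C) +
      if p ∣ A' then 0 else ((p : ℝ) - 1) * (p * p ^ 2) := by
  have hp0 : 0 < p := hp.out.pos
  rw [Nat.mul_div_cancel_left A' hp0]
  rw [su_odd p h2, su_odd p h2]
  simp only [nrt_cast, Finset.mul_sum]
  rw [swap3]
  obtain ⟨n, hn⟩ : ∃ n, p = n + 1 := ⟨p - 1, by omega⟩
  have hsplit : ∀ G : ℕ → ℝ, ∑ j ∈ Finset.range p, G j = G 0 + ∑ j ∈ Finset.range n, G (j + 1) := by
    intro G
    have e1 : Finset.range p = Finset.range (n + 1) := by rw [← hn]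
    rw [e1, Finset.sum_range_succ', add_comm]
  rw [hsplit]
  congr 1
  · refine Finset.sum_congr rfl fun B _ => Finset.sum_congr rfl fun C _ => ?_
    rw [if_pos]
    · ring
    · simp
  · have h1 : ∀ j ∈ Finset.range n, ∑ B ∈ Finset.range (p * p), ∑ C ∈ Finset.range (p * p),
        gi p ((p * A' : ℕ) : ℤ) B C *
          (if (p : ℤ) ∣ (A' : ℤ) * ((j + 1 : ℕ) : ℤ) ^ 2 + (B : ℤ) * ((j + 1 : ℕ) : ℤ) + p * (C : ℤ)
            then (1 : ℝ) else 0) = if p ∣ A' then 0 else (p : ℝ) * p ^ 2 := by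
      intro j hj
      have hj' := Finset.mem_range.mp hj
      have hjp : ¬ (p : ℤ) ∣ ((j + 1 : ℕ) : ℤ) := by
        intro h
        have h3 : p ∣ j + 1 := by exact_mod_cast h
        have := Nat.le_of_dvd (by omega) h3
        omega
      have hd : ∀ B C : ℕ, ((p : ℤ) ∣ (A' : ℤ) * ((j + 1 : ℕ) : ℤ) ^ 2 +
          (B : ℤ) * ((j + 1 : ℕ) : ℤ) + p * (C : ℤ)) ↔ (p : ℤ) ∣ (B : ℤ) + A' * ((j + 1 : ℕ) : ℤ) := by
        intro B C
        have e : (A' : ℤ) * ((j + 1 : ℕ) : ℤ) ^ 2 + (B : ℤ) * ((j + 1 : ℕ) : ℤ) + p * (C : ℤ) =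
            ((j + 1 : ℕ) : ℤ) * ((B : ℤ) + A' * ((j + 1 : ℕ) : ℤ)) + p * (C : ℤ) := by ring
        rw [e, dvd_add_left (Dvd.intro _ rfl)]
        constructor
        · intro h
          rcases (pprime p).dvd_or_dvd h with h | h
          · exact absurd h hjp
          · exact h
        · intro h
          exact Dvd.dvd.mul_left h _
      by_cases hA : p ∣ A'
      · rw [if_pos hA]
        refine Finset.sum_eq_zero fun B _ => Finset.sum_eq_zero fun C _ => ?_
        by_cases h : (p : ℤ) ∣ (B : ℤ) + A' * ((j + 1 : ℕ) : ℤ)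
        · have hA' : (p : ℤ) ∣ (A' : ℤ) := by exact_mod_cast hA
          have hB : (p : ℤ) ∣ (B : ℤ) := (dvd_add_left (Dvd.dvd.mul_right hA' _)).mp h
          rw [gi_odd p h2, if_pos, zero_mul]
          refine dvd_sub ?_ (pow_dvd_pow_of_dvd hB 2)
          obtain ⟨t, ht⟩ := hA'
          refine ⟨4 * t * C, ?_⟩
          push_cast
          rw [ht]
          ring
        · rw [if_neg (fun h' => h ((hd B C).mp h')), mul_zero]
      · rw [if_neg hA]
        have h5 : ∀ B ∈ Finset.range (p * p), ∑ C ∈ Finset.range (p * p),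
            gi p ((p * A' : ℕ) : ℤ) B C *
            (if (p : ℤ) ∣ (A' : ℤ) * ((j + 1 : ℕ) : ℤ) ^ 2 + (B : ℤ) * ((j + 1 : ℕ) : ℤ) +
              p * (C : ℤ) then (1 : ℝ) else 0) =
            p ^ 2 * if (p : ℤ) ∣ (B : ℤ) + A' * ((j + 1 : ℕ) : ℤ) then (1 : ℝ) else 0 := by
          intro B _
          simp only [hd]
          by_cases h : (p : ℤ) ∣ (B : ℤ) + A' * ((j + 1 : ℕ) : ℤ)
          · have hB : ¬ (p : ℤ) ∣ (B : ℤ) := by
              intro hB
              have h6 := (dvd_add_right hB).mp h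
              rcases (pprime p).dvd_or_dvd h6 with h7 | h7
              · exact hA (by exact_mod_cast h7)
              · exact hjp h7
            have h8 : ∀ C ∈ Finset.range (p * p), gi p ((p * A' : ℕ) : ℤ) B C *
                (if (p : ℤ) ∣ (B : ℤ) + A' * ((j + 1 : ℕ) : ℤ) then (1 : ℝ) else 0) = 1 := by
              intro C _
              rw [if_pos h, mul_one, gi_odd p h2, if_neg]
              intro h5
              have h6 : (p : ℤ) ∣ 4 * ((p * A' : ℕ) : ℤ) * C := ⟨4 * A' * C, by push_cast; ring⟩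
              have h7 := (dvd_sub_right h6).mp ((dvd_pow_self (p : ℤ) (by norm_num)).trans h5)
              exact hB ((pprime p).dvd_of_dvd_pow h7)
            rw [Finset.sum_congr rfl h8, if_pos h]
            simp
            ring
          · rw [if_neg h]
            simp
        rw [Finset.sum_congr rfl h5, ← Finset.mul_sum, sum_ind p p hp0]
        ring
    rw [Finset.sum_congr rfl h1, Finset.sum_const, Finset.card_range, nsmul_eq_mul]
    have hn' : (n : ℝ) = (p : ℝ) - 1 := by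
      rw [hn]
      push_cast
      ring
    rw [hn']
    split_ifs <;> ring

end

end Pool.Agent.H96.CN
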