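import Pool.Agent.H31.CN.T4

/-!
# Module NEL of the board `cna_modules`: the element of the group ring at the small primes
-/

set_option autoImplicit false

open scoped Real

namespace Pool.Agent.H96.CN

open Pool.Agent.H31.CN

/-- sum over the divisors of a squarefree number of a product over its primes -/
lemma div_sum (N : ℕ) (hsq : Squarefree N) (u v : ℕ → ℝ) :
    ∑ n ∈ N.divisors, ∏ p ∈ N.primeFactors, (if p ∣ n then u p else v p) =
      ∏ p ∈ N.primeFactors, (u p + v p) := by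
  classical
  have hN0 : N ≠ 0 := hsq.ne_zero
  rw [Finset.prod_add]
  refine Finset.sum_bij (fun n _ => n.primeFactors) ?_ ?_ ?_ ?_
  · intro n hn
    rw [Finset.mem_powerset]
    exact Nat.primeFactors_mono (Nat.dvd_of_mem_divisors hn) hN0
  · intro n hn m hm h
    have h1 := Nat.prod_primeFactors_of_squarefree (hsq.squarefree_of_dvd
      (Nat.dvd_of_mem_divisors hn))
    have h2 := Nat.prod_primeFactors_of_squarefree (hsq.squarefree_of_dvd
      (Nat.dvd_of_mem_divisors hm))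
    rw [← h1, ← h2, h]
  · intro t ht
    rw [Finset.mem_powerset] at ht
    have hprime : ∀ p ∈ t, p.Prime := fun p hp => Nat.prime_of_mem_primeFactors (ht hp)
    refine ⟨∏ p ∈ t, p, ?_, ?_⟩
    · rw [Nat.mem_divisors]
      refine ⟨?_, hN0⟩
      have h1 := Nat.prod_primeFactors_of_squarefree hsq
      rw [← h1]
      exact Finset.prod_dvd_prod_of_subset _ _ _ ht
    · exact Nat.primeFactors_prod hprime
  · intro n hn
    have hd := Nat.dvd_of_mem_divisors hn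
    have hn0 : n ≠ 0 := fun h => hN0 (by rw [h] at hd; exact Nat.eq_zero_of_zero_dvd hd)
    have hsub := Nat.primeFactors_mono hd hN0
    rw [← Finset.prod_sdiff hsub, mul_comm]
    congr 1
    · refine Finset.prod_congr rfl fun p hp => ?_
      rw [if_pos (Nat.dvd_of_mem_primeFactors hp)]
    · refine Finset.prod_congr rfl fun p hp => ?_
      rw [Finset.mem_sdiff] at hp
      rw [if_neg]
      intro h
      exact hp.2 (Nat.mem_primeFactors.mpr ⟨Nat.prime_of_mem_primeFactors hp.1, h, hn0⟩)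

theorem pf_NEL (hLOC : T_LOC) (hLOP : T_LOP) : T_NEL := by
  classical
  intro N hN hN2 hsq
  have hN0 : N ≠ 0 := by omega
  have hex : ∀ p : ℕ, ∃ f : ℕ → ℕ × ℕ → ℝ, p.Prime →
      ((∀ t, t ≤ 2 → ∀ e A, 1 ≤ e → 1 ≤ A → ml p t e A =
      ∑ x ∈ ({1, p, p ^ 2} : Finset ℕ) ×ˢ ({1, p, p ^ 2} : Finset ℕ),
        if x.1 ∣ A ∧ x.2 ∣ e then f t x else 0) ∧
      ∑ x ∈ ({1, p, p ^ 2} : Finset ℕ) ×ˢ ({1, p, p ^ 2} : Finset ℕ),
        (f 0 x + 2 * f 1 x + f 2 x) / ((x.1 : ℝ) * x.2) =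
          (1 - 1 / (p : ℝ)) ^ 3 * (if p = 2 then 1 / 2 else 1 - 1 / (p : ℝ) ^ 2)) := by
    intro p
    by_cases hp : p.Prime
    · obtain ⟨f, hf⟩ := hLOC p hp
      exact ⟨f, fun _ => hf⟩
    · exact ⟨fun _ _ => 0, fun h => absurd h hp⟩
  choose fp hfp using hex
  let D : ℕ → Finset (ℕ × ℕ) := fun p => ({1, p, p ^ 2} : Finset ℕ) ×ˢ ({1, p, p ^ 2} : Finset ℕ)
  let S : Finset ℕ := N.primeFactors
  let P : Finset ((a : ℕ) → a ∈ S → ℕ × ℕ) := S.pi D
  let pr : ((a : ℕ) → a ∈ S → ℕ × ℕ) → ℕ × ℕ := fun y =>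
    (∏ p ∈ S.attach, (y p.1 p.2).1, ∏ p ∈ S.attach, (y p.1 p.2).2)
  let tt : ℕ → ℕ → ℕ → ℕ := fun p n₁ n₂ => (if p ∣ n₁ then 1 else 0) + (if p ∣ n₂ then 1 else 0)
  have htt : ∀ p n₁ n₂, tt p n₁ n₂ ≤ 2 := by
    intro p n₁ n₂
    simp only [tt]
    split_ifs <;> omega
  have hprime : ∀ p ∈ S, p.Prime := fun p hp => Nat.prime_of_mem_primeFactors hp
  have hpow : ∀ p, ∀ z ∈ ({1, p, p ^ 2} : Finset ℕ), ∃ k, k ≤ 2 ∧ z = p ^ k := by
    intro p z hz
    simp only [Finset.mem_insert, Finset.mem_singleton] at hz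
    rcases hz with h | h | h
    · exact ⟨0, by norm_num, by rw [h, pow_zero]⟩
    · exact ⟨1, by norm_num, by rw [h, pow_one]⟩
    · exact ⟨2, le_rfl, h⟩
  have hy : ∀ y ∈ P, ∀ p : S, (∃ k, k ≤ 2 ∧ (y p.1 p.2).1 = p.1 ^ k) ∧
      (∃ k, k ≤ 2 ∧ (y p.1 p.2).2 = p.1 ^ k) := by
    intro y hyP p
    have h1 := Finset.mem_pi.mp hyP p.1 p.2
    have h2 := Finset.mem_product.mp h1
    exact ⟨hpow _ _ h2.1, hpow _ _ h2.2⟩
  have hdvd : ∀ (g : S → ℕ) (A : ℕ), (∀ p : S, ∃ k, k ≤ 2 ∧ g p = p.1 ^ k) →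
      ((∏ p ∈ S.attach, g p) ∣ A ↔ ∀ p ∈ S.attach, g p ∣ A) := by
    intro g A hg
    constructor
    · intro h p hp
      exact (Finset.dvd_prod_of_mem g hp).trans h
    · intro h
      refine Finset.prod_dvd_of_isRelPrime ?_ h
      intro p hp q hq hpq
      obtain ⟨k, _, hk⟩ := hg p
      obtain ⟨l, _, hl⟩ := hg q
      show Function.onFun _ _ _ _
      unfold Function.onFun
      rw [hk, hl]
      have : Nat.Coprime (p.1 ^ k) (q.1 ^ l) := Nat.Coprime.pow k l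
        ((Nat.coprime_primes (hprime _ p.2) (hprime _ q.2)).mpr (fun h => hpq (Subtype.ext h)))
      exact Nat.coprime_iff_isRelPrime.mp this
  refine ⟨P.image pr, fun n₁ n₂ x => ∑ y ∈ P.filter (fun y => pr y = x),
    ∏ p ∈ S.attach, fp p.1 (tt p.1 n₁ n₂) (y p.1 p.2), ?_, ?_, ?_⟩
  · intro x hx
    obtain ⟨y, hyP, rfl⟩ := Finset.mem_image.mp hx
    have hN' : N ^ 2 = ∏ p ∈ S.attach, p.1 ^ 2 := by
      rw [Finset.prod_attach S (fun p => p ^ 2), Finset.prod_pow,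
        Nat.prod_primeFactors_of_squarefree hsq]
    rw [hN']
    constructor
    · refine Finset.prod_dvd_prod_of_dvd _ _ fun p _ => ?_
      obtain ⟨k, hk, hk'⟩ := (hy y hyP p).1
      rw [hk']
      exact pow_dvd_pow _ hk
    · refine Finset.prod_dvd_prod_of_dvd _ _ fun p _ => ?_
      obtain ⟨k, hk, hk'⟩ := (hy y hyP p).2
      rw [hk']
      exact pow_dvd_pow _ hk
  · intro n₁ n₂ e A h₁ h₂ he hA
    rw [hLOP N hN hN2 hsq n₁ n₂ h₁ h₂ e A he hA]
    have e1 : ∏ p ∈ N.primeFactors, ml p ((if p ∣ n₁ then 1 else 0) + (if p ∣ n₂ then 1 else 0))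
        e A = ∏ p ∈ S, ∑ x ∈ D p, if x.1 ∣ A ∧ x.2 ∣ e then fp p (tt p n₁ n₂) x else 0 := by
      refine Finset.prod_congr rfl fun p hp => ?_
      exact (hfp p (hprime p hp)).1 _ (htt p n₁ n₂) e A he hA
    rw [e1, Finset.prod_sum]
    have e2 : ∀ x ∈ P.image pr, (if x.1 ∣ A ∧ x.2 ∣ e then ∑ y ∈ P.filter (fun y => pr y = x),
        ∏ p ∈ S.attach, fp p.1 (tt p.1 n₁ n₂) (y p.1 p.2) else 0) =
        ∑ y ∈ P.filter (fun y => pr y = x), if (pr y).1 ∣ A ∧ (pr y).2 ∣ e then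
          ∏ p ∈ S.attach, fp p.1 (tt p.1 n₁ n₂) (y p.1 p.2) else 0 := by
      intro x _
      by_cases h : x.1 ∣ A ∧ x.2 ∣ e
      · rw [if_pos h]
        refine Finset.sum_congr rfl fun y hy' => ?_
        rw [(Finset.mem_filter.mp hy').2, if_pos h]
      · rw [if_neg h]
        symm
        refine Finset.sum_eq_zero fun y hy' => ?_
        rw [(Finset.mem_filter.mp hy').2, if_neg h]
    rw [Finset.sum_congr rfl e2]
    rw [Finset.sum_fiberwise_of_maps_to (fun y hyP => Finset.mem_image_of_mem pr hyP)]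
    refine Finset.sum_congr rfl fun y hyP => ?_
    rw [Finset.prod_ite_zero]
    have e3 : ((pr y).1 ∣ A ∧ (pr y).2 ∣ e) ↔
        ∀ p ∈ S.attach, (y p.1 p.2).1 ∣ A ∧ (y p.1 p.2).2 ∣ e := by
      simp only [pr]
      rw [hdvd (fun p => (y p.1 p.2).1) A (fun p => (hy y hyP p).1),
        hdvd (fun p => (y p.1 p.2).2) e (fun p => (hy y hyP p).2)]
      constructor
      · rintro ⟨h3, h4⟩ p hp
        exact ⟨h3 p hp, h4 p hp⟩
      · intro h
        exact ⟨fun p hp => (h p hp).1, fun p hp => (h p hp).2⟩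
    by_cases h : (pr y).1 ∣ A ∧ (pr y).2 ∣ e
    · rw [if_pos h, if_pos (e3.mp h)]
    · rw [if_neg h, if_neg (fun h' => h (e3.mpr h'))]
  · -- the total mass
    let g : ℕ → ℕ → ℝ := fun p t => ∑ x ∈ D p, fp p t x / ((x.1 : ℝ) * x.2)
    have e1 : ∀ n₁ n₂ : ℕ, ∑ x ∈ P.image pr, (∑ y ∈ P.filter (fun y => pr y = x),
        ∏ p ∈ S.attach, fp p.1 (tt p.1 n₁ n₂) (y p.1 p.2)) / ((x.1 : ℝ) * x.2) =
        ∏ p ∈ S, g p (tt p n₁ n₂) := by
      intro n₁ n₂
      simp only [g]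
      rw [Finset.prod_sum]
      have e2 : ∀ x ∈ P.image pr, (∑ y ∈ P.filter (fun y => pr y = x),
          ∏ p ∈ S.attach, fp p.1 (tt p.1 n₁ n₂) (y p.1 p.2)) / ((x.1 : ℝ) * x.2) =
          ∑ y ∈ P.filter (fun y => pr y = x), (∏ p ∈ S.attach,
            fp p.1 (tt p.1 n₁ n₂) (y p.1 p.2)) / (((pr y).1 : ℝ) * (pr y).2) := by
        intro x _
        rw [Finset.sum_div]
        refine Finset.sum_congr rfl fun y hy' => ?_
        rw [(Finset.mem_filter.mp hy').2]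
      rw [Finset.sum_congr rfl e2,
        Finset.sum_fiberwise_of_maps_to (fun y hyP => Finset.mem_image_of_mem pr hyP)]
      refine Finset.sum_congr rfl fun y _ => ?_
      simp only [pr]
      push_cast
      rw [← Finset.prod_mul_distrib, ← Finset.prod_div_distrib]
    simp only [e1]
    have e2 : ∀ n₁ ∈ N.divisors, ∑ n₂ ∈ N.divisors, ∏ p ∈ S, g p (tt p n₁ n₂) =
        ∏ p ∈ S, (if p ∣ n₁ then g p 2 + g p 1 else g p 1 + g p 0) := by
      intro n₁ _
      have e3 : ∀ n₂ ∈ N.divisors, ∏ p ∈ S, g p (tt p n₁ n₂) =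
          ∏ p ∈ N.primeFactors, (if p ∣ n₂ then g p ((if p ∣ n₁ then 1 else 0) + 1) else
            g p ((if p ∣ n₁ then 1 else 0) + 0)) := by
        intro n₂ _
        refine Finset.prod_congr rfl fun p _ => ?_
        simp only [tt]
        by_cases h : p ∣ n₂
        · rw [if_pos h, if_pos h]
        · rw [if_neg h, if_neg h]
      rw [Finset.sum_congr rfl e3, div_sum N hsq]
      refine Finset.prod_congr rfl fun p _ => ?_
      by_cases h : p ∣ n₁
      · simp [h]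
      · simp [h]
    rw [Finset.sum_congr rfl e2, div_sum N hsq]
    have e4 : ∀ p ∈ N.primeFactors, (g p 2 + g p 1 + (g p 1 + g p 0)) =
        (1 - 1 / (p : ℝ)) ^ 3 * ((if p = 2 then 1 / 2 else 1) *
          (if p = 2 then 1 else 1 - 1 / (p : ℝ) ^ 2)) := by
      intro p hp
      have h := (hfp p (hprime p hp)).2
      have e5 : g p 2 + g p 1 + (g p 1 + g p 0) = ∑ x ∈ D p,
          (fp p 0 x + 2 * fp p 1 x + fp p 2 x) / ((x.1 : ℝ) * x.2) := by
        simp only [g]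
        rw [← Finset.sum_add_distrib, ← Finset.sum_add_distrib, ← Finset.sum_add_distrib]
        refine Finset.sum_congr rfl fun x _ => ?_
        ring
      rw [e5]
      refine h.trans ?_
      congr 1
      split_ifs <;> ring
    rw [Finset.prod_congr rfl e4, Finset.prod_mul_distrib, Finset.prod_mul_distrib,
      Finset.prod_ite_eq', if_pos (Nat.mem_primeFactors.mpr ⟨Nat.prime_two, hN2, hN0⟩)]
    unfold dR
    ring

end Pool.Agent.H96.CN
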