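import Mathlib

/-!
# Sums of periodic functions over complete residue systems
-/

set_option autoImplicit false

namespace Pool.Agent.H96.CN

/-- `F` depends only on its argument modulo `q` -/
def Per (q : ℕ) (F : ℤ → ℝ) : Prop := ∀ a b : ℤ, (q : ℤ) ∣ a - b → F a = F b

lemma sum_crs (q : ℕ) (hq : 0 < q) (F : ℤ → ℝ) (hF : Per q F) (s : ℕ → ℤ)
    (hs : ∀ i j, i < q → j < q → (q : ℤ) ∣ s i - s j → i = j) :
    ∑ i ∈ Finset.range q, F (s i) = ∑ i ∈ Finset.range q, F (i : ℤ) := by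
  have hq' : (0 : ℤ) < q := by exact_mod_cast hq
  have hcast : ∀ i, (((s i % q).toNat : ℕ) : ℤ) = s i % q := fun i =>
    Int.toNat_of_nonneg (Int.emod_nonneg _ hq'.ne')
  have hlt : ∀ i, (s i % q).toNat < q := by
    intro i
    have h1 := Int.emod_lt_of_pos (s i) hq'
    have h2 := hcast i
    omega
  have hmaps : ∀ a ∈ Finset.range q, (s a % q).toNat ∈ Finset.range q := fun a _ =>
    Finset.mem_range.mpr (hlt a)
  have hinj : Set.InjOn (fun a => (s a % q).toNat) (Finset.range q : Set ℕ) := by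
    intro i hi j hj hij
    simp only at hij
    have h1 : s i % q = s j % q := by rw [← hcast i, ← hcast j, hij]
    exact hs i j (by simpa using hi) (by simpa using hj) (Int.ModEq.dvd (Int.ModEq.symm h1))
  refine Finset.sum_nbij (fun a => (s a % q).toNat) hmaps hinj ?_ ?_
  · exact Finset.surjOn_of_injOn_of_card_le _ hmaps hinj le_rfl
  · intro a _
    rw [hcast a]
    refine hF _ _ ?_
    exact Int.dvd_self_sub_emod

lemma sum_shift (q : ℕ) (hq : 0 < q) (F : ℤ → ℝ) (hF : Per q F) (c : ℤ) :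
    ∑ i ∈ Finset.range q, F ((i : ℤ) + c) = ∑ i ∈ Finset.range q, F (i : ℤ) := by
  refine sum_crs q hq F hF (fun i => (i : ℤ) + c) ?_
  intro i j hi hj h
  have h1 : (q : ℤ) ∣ (i : ℤ) - j := by simpa using h
  have h2 := Int.eq_zero_of_abs_lt_dvd h1 (by rw [abs_lt]; constructor <;> omega)
  omega

lemma sum_mult (q n : ℕ) (F : ℤ → ℝ) (hF : Per q F) :
    ∑ i ∈ Finset.range (n * q), F (i : ℤ) = n * ∑ i ∈ Finset.range q, F (i : ℤ) := by
  induction n with
  | zero => simp
  | succ n ih =>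
    rw [Nat.succ_mul, Finset.sum_range_add, ih]
    have h : ∀ i ∈ Finset.range q, F (((n * q + i : ℕ)) : ℤ) = F (i : ℤ) := by
      intro i _
      refine hF _ _ ?_
      push_cast
      exact ⟨n, by ring⟩
    rw [Finset.sum_congr rfl h]
    push_cast
    ring

lemma per_dvd (q : ℕ) (r : ℝ) : Per q (fun z => if (q : ℤ) ∣ z then r else 0) := by
  intro a b h
  have : (q : ℤ) ∣ a ↔ (q : ℤ) ∣ b := by
    constructor
    · intro ha
      have := dvd_sub ha h
      simpa using this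
    · intro hb
      have := dvd_add h hb
      simpa using this
  simp only [this]

lemma sum_ind_self (q : ℕ) (hq : 0 < q) (c : ℤ) :
    ∑ i ∈ Finset.range q, (if (q : ℤ) ∣ (i : ℤ) + c then (1 : ℝ) else 0) = 1 := by
  rw [sum_shift q hq (fun z => if (q : ℤ) ∣ z then (1 : ℝ) else 0) (per_dvd q 1) c]
  rw [Finset.sum_eq_single 0]
  · simp
  · intro b hb hb0
    rw [if_neg]
    intro h
    have h1 : q ∣ b := by exact_mod_cast h
    have h2 := Nat.le_of_dvd (Nat.pos_of_ne_zero hb0) h1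
    have h3 := Finset.mem_range.mp hb
    omega
  · intro h
    exact absurd (Finset.mem_range.mpr hq) h

/-- the number of `i < n q` with `q ∣ i + c` -/
lemma sum_ind (q n : ℕ) (hq : 0 < q) (c : ℤ) :
    ∑ i ∈ Finset.range (n * q), (if (q : ℤ) ∣ (i : ℤ) + c then (1 : ℝ) else 0) = n := by
  have hper : Per q (fun z => if (q : ℤ) ∣ z + c then (1 : ℝ) else 0) := by
    intro a b h
    exact per_dvd q 1 (a + c) (b + c) (by simpa using h)
  rw [sum_mult q n (fun z => if (q : ℤ) ∣ z + c then (1 : ℝ) else 0) hper, sum_ind_self q hq c,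
    mul_one]

lemma sum_nind (q n : ℕ) (hq : 0 < q) (c : ℤ) :
    ∑ i ∈ Finset.range (n * q), (if ¬ (q : ℤ) ∣ (i : ℤ) + c then (1 : ℝ) else 0) =
      n * q - n := by
  have h : ∀ i ∈ Finset.range (n * q), (if ¬ (q : ℤ) ∣ (i : ℤ) + c then (1 : ℝ) else 0) =
      1 - (if (q : ℤ) ∣ (i : ℤ) + c then (1 : ℝ) else 0) := by
    intro i _
    split_ifs <;> simp_all
  rw [Finset.sum_congr rfl h, Finset.sum_sub_distrib, sum_ind q n hq c]
  simp

lemma eq_of_dvd_sub {q i j : ℕ} (hi : i < q) (hj : j < q) (h : (q : ℤ) ∣ (i : ℤ) - j) : i = j := by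
  have h2 := Int.eq_zero_of_abs_lt_dvd h (by rw [abs_lt]; constructor <;> omega)
  omega

end Pool.Agent.H96.CN
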