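import Pool.Agent.H31.CN.T4
import Pool.Agent.H96.CN.Per

/-!
# Module LOC of the board `cna_modules`: the local means at a small prime
-/

set_option autoImplicit false

open scoped Real

namespace Pool.Agent.H96.CN

open Pool.Agent.H31.CN

/-- the local condition -/
noncomputable def gi (p : ℕ) (A B C : ℤ) : ℝ :=
  if (if p = 2 then (4 * A * C - B ^ 2) % 4 = 3 else ¬ ((p : ℤ) ^ 2 ∣ 4 * A * C - B ^ 2))
    then 1 else 0

/-- the character -/
noncomputable def ch (p : ℕ) (A B C : ℤ) : ℝ := (chi p (4 * A * C - B ^ 2) : ℝ)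

/-- sums over the local modulus -/
noncomputable def su (p : ℕ) (h : ℤ → ℤ → ℝ) : ℝ :=
  ∑ B ∈ Finset.range (ql p), ∑ C ∈ Finset.range (ql p), h B C

lemma su_add (p : ℕ) (g h : ℤ → ℤ → ℝ) : su p (fun B C => g B C + h B C) = su p g + su p h := by
  unfold su
  simp only [Finset.sum_add_distrib]

lemma su_mul (p : ℕ) (c : ℝ) (h : ℤ → ℤ → ℝ) : su p (fun B C => c * h B C) = c * su p h := by
  unfold su
  simp only [Finset.mul_sum]

lemma wl_zero (p e A : ℕ) (B C : ℤ) : wl p 0 e A B C =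
    gi p A B C + (2 / p) * (gi p A B C * ch p A B C) +
      (1 / p) ^ 2 * (gi p A B C * ch p A B C ^ 2) := by
  unfold wl gi ch
  by_cases h : (if p = 2 then (4 * (A : ℤ) * C - B ^ 2) % 4 = 3 else
    ¬ ((p : ℤ) ^ 2 ∣ 4 * (A : ℤ) * C - B ^ 2))
  · rw [if_pos h, if_pos h, if_pos rfl]
    ring
  · rw [if_neg h, if_neg h]
    ring

lemma wl_one (p e A : ℕ) (B C : ℤ) : wl p 1 e A B C =
    (if p ∣ A then (-1 : ℝ) else 0) * (gi p A B C + (1 / p) * (gi p A B C * ch p A B C)) +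
      (if p ∣ e then (-1 : ℝ) else 0) * (gi p A B C * nrt p A B C +
      (1 / p) * (gi p A B C * ch p A B C * nrt p A B C)) := by
  unfold wl gi ch N1
  by_cases h : (if p = 2 then (4 * (A : ℤ) * C - B ^ 2) % 4 = 3 else
    ¬ ((p : ℤ) ^ 2 ∣ 4 * (A : ℤ) * C - B ^ 2))
  · rw [if_pos h, if_pos h, if_neg (by norm_num), if_pos rfl]
    by_cases h1 : p ∣ A
    · by_cases h2 : p ∣ e
      · simp only [if_pos h1, if_pos h2]
        push_cast
        ring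
      · simp only [if_pos h1, if_neg h2]
        push_cast
        ring
    · by_cases h2 : p ∣ e
      · simp only [if_neg h1, if_pos h2]
        push_cast
        ring
      · simp only [if_neg h1, if_neg h2]
        push_cast
        ring
  · rw [if_neg h, if_neg h]
    ring

lemma wl_two (p e A : ℕ) (B C : ℤ) : wl p 2 e A B C =
    (if p ^ 2 ∣ A then (1 : ℝ) else 0) * gi p A B C +
      (if p ∣ A ∧ p ∣ e then (1 : ℝ) else 0) *
        (gi p A B C * nrt p ((A / p : ℕ) : ℤ) B (p * C)) +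
      (if p ∣ e then (1 : ℝ) else 0) * (gi p A B C * nrt p A B C) +
      (if p ^ 2 ∣ e then (1 : ℝ) else 0) * (gi p A B C * nrt (p ^ 2) A B C) := by
  unfold wl gi N2
  by_cases h : (if p = 2 then (4 * (A : ℤ) * C - B ^ 2) % 4 = 3 else
    ¬ ((p : ℤ) ^ 2 ∣ 4 * (A : ℤ) * C - B ^ 2))
  · rw [if_pos h, if_pos h, if_neg (by norm_num), if_neg (by norm_num)]
    push_cast
    simp only [ite_mul, zero_mul, one_mul]
  · rw [if_neg h, if_neg h]
    ring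

lemma ml_eq (p t e A : ℕ) : ml p t e A =
    (1 / (ql p : ℝ) ^ 2) * su p (fun B C => wl p t e A B C) := rfl

lemma ml_zero (p e A : ℕ) : ml p 0 e A = (1 / (ql p : ℝ) ^ 2) *
    (su p (fun B C => gi p A B C) + (2 / p) * su p (fun B C => gi p A B C * ch p A B C) +
      (1 / p) ^ 2 * su p (fun B C => gi p A B C * ch p A B C ^ 2)) := by
  rw [← su_mul, ← su_mul, ← su_add, ← su_add, ml_eq]
  simp only [wl_zero]

lemma ml_one (p e A : ℕ) : ml p 1 e A = (1 / (ql p : ℝ) ^ 2) *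
    ((if p ∣ A then (-1 : ℝ) else 0) * (su p (fun B C => gi p A B C) +
      (1 / p) * su p (fun B C => gi p A B C * ch p A B C)) +
      (if p ∣ e then (-1 : ℝ) else 0) * (su p (fun B C => gi p A B C * nrt p A B C) +
      (1 / p) * su p (fun B C => gi p A B C * ch p A B C * nrt p A B C))) := by
  rw [← su_mul p (1 / p), ← su_mul p (1 / p), ← su_add, ← su_add, ← su_mul, ← su_mul, ← su_add,
    ml_eq]
  simp only [wl_one]

lemma ml_two (p e A : ℕ) : ml p 2 e A = (1 / (ql p : ℝ) ^ 2) *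
    ((if p ^ 2 ∣ A then (1 : ℝ) else 0) * su p (fun B C => gi p A B C) +
      (if p ∣ A ∧ p ∣ e then (1 : ℝ) else 0) *
        su p (fun B C => gi p A B C * nrt p ((A / p : ℕ) : ℤ) B (p * C)) +
      (if p ∣ e then (1 : ℝ) else 0) * su p (fun B C => gi p A B C * nrt p A B C) +
      (if p ^ 2 ∣ e then (1 : ℝ) else 0) *
        su p (fun B C => gi p A B C * nrt (p ^ 2) A B C)) := by
  rw [← su_mul, ← su_mul, ← su_mul, ← su_mul, ← su_add, ← su_add, ← su_add, ml_eq]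
  simp only [wl_two]

/-! ### Assembly -/

/-- exponent of `p` in `n`, capped by `2` -/
def kk (p n : ℕ) : ℕ := if p ^ 2 ∣ n then 2 else if p ∣ n then 1 else 0

/-- exponent of `x`, `x = 1, p, p²` -/
def kx (p x : ℕ) : ℕ := if x = 1 then 0 else if x = p then 1 else 2

/-- the difference matrix -/
noncomputable def df (M : ℕ → ℕ → ℝ) (k i : ℕ) : ℝ :=
  M k i - (if k = 0 then 0 else M (k - 1) i) - (if i = 0 then 0 else M k (i - 1)) +
    (if k = 0 ∨ i = 0 then 0 else M (k - 1) (i - 1))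

lemma ne_facts (p : ℕ) (hp : p.Prime) : (1 : ℕ) ≠ p ∧ (1 : ℕ) ≠ p ^ 2 ∧ p ≠ p ^ 2 := by
  have h1 := hp.one_lt
  refine ⟨h1.ne, ?_, ?_⟩
  · have := Nat.one_lt_pow (n := 2) (by norm_num) hp.one_lt
    omega
  · intro h
    nlinarith

lemma sum3 (p : ℕ) (hp : p.Prime) (F : ℕ → ℝ) :
    ∑ x ∈ ({1, p, p ^ 2} : Finset ℕ), F x = F 1 + (F p + F (p ^ 2)) := by
  obtain ⟨h1, h2, h3⟩ := ne_facts p hp
  rw [Finset.sum_insert, Finset.sum_insert, Finset.sum_singleton]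
  · rw [Finset.mem_singleton]
    exact h3
  · rw [Finset.mem_insert, Finset.mem_singleton]
    tauto

lemma sum_df (p : ℕ) (hp : p.Prime) (M : ℕ → ℕ → ℝ) (A e : ℕ) :
    (∑ x ∈ ({1, p, p ^ 2} : Finset ℕ) ×ˢ ({1, p, p ^ 2} : Finset ℕ),
        if x.1 ∣ A ∧ x.2 ∣ e then df M (kx p x.1) (kx p x.2) else 0) = M (kk p A) (kk p e) := by
  obtain ⟨h1, h2, h3⟩ := ne_facts p hp
  have h1' : p ≠ 1 := h1.symm
  have h2' : p ^ 2 ≠ 1 := h2.symm
  have h3' : p ^ 2 ≠ p := h3.symm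
  have hpp : p ^ 2 ∣ A → p ∣ A := fun h => (dvd_pow_self p (by norm_num)).trans h
  have hpe : p ^ 2 ∣ e → p ∣ e := fun h => (dvd_pow_self p (by norm_num)).trans h
  rw [Finset.sum_product, sum3 p hp]
  simp only [sum3 p hp]
  have k1 : kx p 1 = 0 := by simp [kx]
  have k2 : kx p p = 1 := by simp [kx, h1']
  have k3 : kx p (p ^ 2) = 2 := by
    unfold kx
    rw [if_neg h2', if_neg h3']
  rw [k1, k2, k3]
  by_cases ha2 : p ^ 2 ∣ A
  · have ha1 := hpp ha2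
    by_cases he2 : p ^ 2 ∣ e
    · have he1 := hpe he2
      simp [kk, df, ha2, ha1, he2, he1] <;> ring
    · by_cases he1 : p ∣ e
      · simp [kk, df, ha2, ha1, he2, he1] <;> ring
      · simp [kk, df, ha2, ha1, he2, he1] <;> ring
  · by_cases ha1 : p ∣ A
    · by_cases he2 : p ^ 2 ∣ e
      · have he1 := hpe he2
        simp [kk, df, ha2, ha1, he2, he1] <;> ring
      · by_cases he1 : p ∣ e
        · simp [kk, df, ha2, ha1, he2, he1] <;> ring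
        · simp [kk, df, ha2, ha1, he2, he1] <;> ring
    · by_cases he2 : p ^ 2 ∣ e
      · have he1 := hpe he2
        simp [kk, df, ha2, ha1, he2, he1] <;> ring
      · by_cases he1 : p ∣ e
        · simp [kk, df, ha2, ha1, he2, he1] <;> ring
        · simp [kk, df, ha2, ha1, he2, he1] <;> ring

lemma tot_df (p : ℕ) (hp : p.Prime) (M0 M1 M2 : ℕ → ℕ → ℝ) (x : ℝ) (hx : x = 1 / (p : ℝ)) :
    (∑ y ∈ ({1, p, p ^ 2} : Finset ℕ) ×ˢ ({1, p, p ^ 2} : Finset ℕ),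
      (df M0 (kx p y.1) (kx p y.2) + 2 * df M1 (kx p y.1) (kx p y.2) +
        df M2 (kx p y.1) (kx p y.2)) / ((y.1 : ℝ) * y.2)) =
    (1 - x) * ((1 - x) * (M0 0 0 + 2 * M1 0 0 + M2 0 0) +
      (x * (1 - x)) * (M0 0 1 + 2 * M1 0 1 + M2 0 1) +
      x ^ 2 * (M0 0 2 + 2 * M1 0 2 + M2 0 2)) +
    (x * (1 - x)) * ((1 - x) * (M0 1 0 + 2 * M1 1 0 + M2 1 0) +
      (x * (1 - x)) * (M0 1 1 + 2 * M1 1 1 + M2 1 1) +
      x ^ 2 * (M0 1 2 + 2 * M1 1 2 + M2 1 2)) +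
    x ^ 2 * ((1 - x) * (M0 2 0 + 2 * M1 2 0 + M2 2 0) +
      (x * (1 - x)) * (M0 2 1 + 2 * M1 2 1 + M2 2 1) +
      x ^ 2 * (M0 2 2 + 2 * M1 2 2 + M2 2 2)) := by
  obtain ⟨h1, h2, h3⟩ := ne_facts p hp
  have h1' : p ≠ 1 := h1.symm
  have h2' : p ^ 2 ≠ 1 := h2.symm
  have h3' : p ^ 2 ≠ p := h3.symm
  rw [Finset.sum_product, sum3 p hp]
  simp only [sum3 p hp]
  have k1 : kx p 1 = 0 := by simp [kx]
  have k2 : kx p p = 1 := by simp [kx, h1']
  have k3 : kx p (p ^ 2) = 2 := by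
    unfold kx
    rw [if_neg h2', if_neg h3']
  rw [k1, k2, k3]
  have hp0 : (p : ℝ) ≠ 0 := by exact_mod_cast hp.ne_zero
  have hd : ∀ y z : ℝ, y / z = y * z⁻¹ := fun y z => div_eq_mul_inv y z
  have hx' : (p : ℝ)⁻¹ = x := by rw [hx, one_div]
  have hx2 : (((p ^ 2 : ℕ) : ℝ))⁻¹ = x ^ 2 := by rw [Nat.cast_pow, ← inv_pow, hx']
  simp only [hd, mul_inv, hx2, hx', Nat.cast_one, inv_one]
  simp [df]
  ring

lemma one_le_kk (p n : ℕ) : 1 ≤ kk p n ↔ p ∣ n := by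
  unfold kk
  by_cases h2 : p ^ 2 ∣ n
  · have h1 : p ∣ n := (dvd_pow_self p (by norm_num)).trans h2
    simp [h2, h1]
  · by_cases h1 : p ∣ n
    · simp [h2, h1]
    · simp [h2, h1]

lemma kk_two (p n : ℕ) : kk p n = 2 ↔ p ^ 2 ∣ n := by
  unfold kk
  by_cases h2 : p ^ 2 ∣ n
  · simp [h2]
  · by_cases h1 : p ∣ n
    · simp [h2, h1]
    · simp [h2, h1]

lemma assemble (p : ℕ) (hp : p.Prime) (x u Q : ℝ) (hx : x = 1 / (p : ℝ)) (T X1 R R' : ℕ → ℝ)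
    (hQ : Q = (ql p : ℝ) ^ 2) (hQ0 : Q ≠ 0)
    (hT : ∀ A : ℕ, 1 ≤ A → su p (fun B C => gi p A B C) = Q * T (kk p A))
    (hX1 : ∀ A : ℕ, 1 ≤ A → su p (fun B C => gi p A B C * ch p A B C) = Q * X1 (kk p A))
    (hX2 : ∀ A : ℕ, 1 ≤ A → su p (fun B C => gi p A B C * ch p A B C ^ 2) = Q * u)
    (hR : ∀ A : ℕ, 1 ≤ A → su p (fun B C => gi p A B C * nrt p A B C) = Q * R (kk p A))
    (hRX : ∀ A : ℕ, 1 ≤ A → su p (fun B C => gi p A B C * ch p A B C * nrt p A B C) = Q * u)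
    (hR' : ∀ A : ℕ, 1 ≤ A → p ∣ A →
      su p (fun B C => gi p A B C * nrt p ((A / p : ℕ) : ℤ) B (p * C)) = Q * R' (kk p A))
    (hR2 : ∀ A : ℕ, 1 ≤ A → su p (fun B C => gi p A B C * nrt (p ^ 2) A B C) = Q * u) :
    ∃ f : ℕ → ℕ × ℕ → ℝ,
    (∀ t, t ≤ 2 → ∀ e A, 1 ≤ e → 1 ≤ A → ml p t e A =
      ∑ x ∈ ({1, p, p ^ 2} : Finset ℕ) ×ˢ ({1, p, p ^ 2} : Finset ℕ),
        if x.1 ∣ A ∧ x.2 ∣ e then f t x else 0) ∧
    ∑ x ∈ ({1, p, p ^ 2} : Finset ℕ) ×ˢ ({1, p, p ^ 2} : Finset ℕ),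
      (f 0 x + 2 * f 1 x + f 2 x) / ((x.1 : ℝ) * x.2) =
      (1 - x) * (T 0 + 2 * x * X1 0 + x ^ 2 * u - x * R 0 - 2 * x ^ 2 * u + x ^ 2 * u) +
      (x * (1 - x)) * (x ^ 2 * u - T 1 - x * R 1 - 2 * x ^ 2 * u + x * R' 1 + x ^ 2 * u) +
      x ^ 2 * (x ^ 2 * u - x * R 2 - 2 * x ^ 2 * u + x * R' 2 + x ^ 2 * u) := by
  let M0 : ℕ → ℕ → ℝ := fun k _ => T k + 2 * x * X1 k + x ^ 2 * u
  let M1 : ℕ → ℕ → ℝ := fun k i => (if 1 ≤ k then (-1 : ℝ) else 0) * (T k + x * X1 k) +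
    (if 1 ≤ i then (-1 : ℝ) else 0) * (R k + x * u)
  let M2 : ℕ → ℕ → ℝ := fun k i => (if k = 2 then (1 : ℝ) else 0) * T k +
    (if 1 ≤ k ∧ 1 ≤ i then (1 : ℝ) else 0) * R' k + (if 1 ≤ i then (1 : ℝ) else 0) * R k +
    (if i = 2 then (1 : ℝ) else 0) * u
  have hM0 : ∀ e A, 1 ≤ A → ml p 0 e A = M0 (kk p A) (kk p e) := by
    intro e A hA
    rw [ml_zero, hT A hA, hX1 A hA, hX2 A hA, ← hQ]
    have : (2 : ℝ) / p = 2 * x := by rw [hx]; ring
    rw [this, ← hx]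
    show _ = T (kk p A) + 2 * x * X1 (kk p A) + x ^ 2 * u
    field_simp
  have hM1 : ∀ e A, 1 ≤ A → ml p 1 e A = M1 (kk p A) (kk p e) := by
    intro e A hA
    rw [ml_one, hT A hA, hX1 A hA, hR A hA, hRX A hA, ← hQ, ← hx]
    show _ = (if 1 ≤ kk p A then (-1 : ℝ) else 0) * (T (kk p A) + x * X1 (kk p A)) +
      (if 1 ≤ kk p e then (-1 : ℝ) else 0) * (R (kk p A) + x * u)
    simp only [one_le_kk]
    field_simp
  have hM2 : ∀ e A, 1 ≤ A → ml p 2 e A = M2 (kk p A) (kk p e) := by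
    intro e A hA
    rw [ml_two, hT A hA, hR A hA, hR2 A hA, ← hQ]
    show _ = (if kk p A = 2 then (1 : ℝ) else 0) * T (kk p A) +
      (if 1 ≤ kk p A ∧ 1 ≤ kk p e then (1 : ℝ) else 0) * R' (kk p A) +
      (if 1 ≤ kk p e then (1 : ℝ) else 0) * R (kk p A) +
      (if kk p e = 2 then (1 : ℝ) else 0) * u
    simp only [one_le_kk, kk_two]
    by_cases h : p ∣ A
    · rw [hR' A hA h]
      field_simp
    · have h' : ¬ (p ∣ A ∧ p ∣ e) := fun hh => h hh.1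
      rw [if_neg h', zero_mul, zero_mul]
      field_simp
      ring
  refine ⟨fun t y => if t = 0 then df M0 (kx p y.1) (kx p y.2) else
    if t = 1 then df M1 (kx p y.1) (kx p y.2) else df M2 (kx p y.1) (kx p y.2), ?_, ?_⟩
  · intro t ht e A he hA
    interval_cases t
    · rw [hM0 e A hA, ← sum_df p hp M0 A e]
      simp
    · rw [hM1 e A hA, ← sum_df p hp M1 A e]
      simp
    · rw [hM2 e A hA, ← sum_df p hp M2 A e]
      simp
  · have := tot_df p hp M0 M1 M2 x hx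
    simp only [if_true, one_ne_zero, if_false, OfNat.ofNat_ne_zero, OfNat.ofNat_ne_one]
    rw [this]
    simp only [M0, M1, M2]
    norm_num
    ring

end Pool.Agent.H96.CN
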