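import Pool.Agent.H96.CN.LOCOdd

/-!
# Module LOC of the board `cna_modules`: the prime two
-/

set_option autoImplicit false

open scoped Real

namespace Pool.Agent.H96.CN

open Pool.Agent.H31.CN

lemma su_two (h : ℤ → ℤ → ℝ) : su 2 h =
    ∑ B ∈ Finset.range (16 * 2), ∑ C ∈ Finset.range (16 * 2), h B C := by
  unfold su ql
  rw [if_pos rfl]

lemma gi_two (A B C : ℤ) : gi 2 A B C = if (2 : ℤ) ∣ B then 0 else 1 := by
  unfold gi
  obtain ⟨b, hb | hb⟩ := Int.even_or_odd' B
  · have h1 : (2 : ℤ) ∣ B := ⟨b, hb⟩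
    rw [if_pos h1, if_neg]
    rw [if_pos rfl, hb]
    have : 4 * A * C - (2 * b) ^ 2 = 4 * (A * C - b ^ 2) := by ring
    rw [this]
    omega
  · have h1 : ¬ (2 : ℤ) ∣ B := by omega
    rw [if_neg h1, if_pos]
    rw [if_pos rfl, hb]
    have : 4 * A * C - (2 * b + 1) ^ 2 = 4 * (A * C - b ^ 2 - b) - 1 := by ring
    rw [this]
    omega

lemma ch_two (A B C : ℤ) (hB : ¬ (2 : ℤ) ∣ B) :
    ch 2 A B C = if (2 : ℤ) ∣ A * C then 1 else -1 := by
  unfold ch chi
  rw [if_pos rfl]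
  obtain ⟨b, hb | hb⟩ := Int.even_or_odd' B
  · exact absurd ⟨b, hb⟩ hB
  · obtain ⟨m, hm⟩ : ∃ m, b ^ 2 + b = 2 * m := by
      have := Int.even_mul_succ_self b
      obtain ⟨m, hm⟩ := this
      exact ⟨m, by linarith [hm, sq b, mul_add b b 1]⟩
    have e : 4 * A * C - B ^ 2 = 4 * (A * C) - 8 * m - 1 := by
      rw [hb]
      linear_combination (-4) * hm
    rw [e]
    by_cases h : (2 : ℤ) ∣ A * C
    · rw [if_pos h, if_pos (by omega)]
      simp
    · rw [if_neg h, if_neg (by omega)]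
      simp

lemma T_two' (A : ℕ) : su 2 (fun B C => gi 2 A B C) = 512 := by
  rw [su_two]
  simp only [gi_two, Finset.sum_const, Finset.card_range, nsmul_eq_mul]
  rw [← Finset.mul_sum]
  have := sum_ite0 2 16 (by norm_num) 1 0
  push_cast at this
  rw [this]
  norm_num

lemma X1_even (A : ℕ) (hA : 2 ∣ A) : su 2 (fun B C => gi 2 A B C * ch 2 A B C) = 512 := by
  rw [← T_two' A, su_two, su_two]
  refine Finset.sum_congr rfl fun B _ => Finset.sum_congr rfl fun C _ => ?_
  rw [gi_two]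
  by_cases h : (2 : ℤ) ∣ (B : ℤ)
  · rw [if_pos h, zero_mul]
  · have hA' : (2 : ℤ) ∣ (A : ℤ) := by exact_mod_cast hA
    rw [if_neg h, ch_two _ _ _ h, if_pos (Dvd.dvd.mul_right hA' _), mul_one]

lemma X1_odd (A : ℕ) (hA : ¬ 2 ∣ A) : su 2 (fun B C => gi 2 A B C * ch 2 A B C) = 0 := by
  rw [su_two]
  refine Finset.sum_eq_zero fun B _ => ?_
  by_cases h : (2 : ℤ) ∣ (B : ℤ)
  · refine Finset.sum_eq_zero fun C _ => ?_
    rw [gi_two, if_pos h, zero_mul]
  · have h1 : ∀ C ∈ Finset.range (16 * 2), gi 2 A B C * ch 2 A B C =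
        if (2 : ℤ) ∣ (C : ℤ) then 1 else -1 := by
      intro C _
      rw [gi_two, if_neg h, ch_two _ _ _ h, one_mul]
      have hA' : ¬ (2 : ℤ) ∣ (A : ℤ) := by exact_mod_cast hA
      have : (2 : ℤ) ∣ A * C ↔ (2 : ℤ) ∣ C := by
        constructor
        · intro h3
          rcases Int.prime_two.dvd_or_dvd h3 with h4 | h4
          · exact absurd h4 hA'
          · exact h4
        · intro h3
          exact Dvd.dvd.mul_left h3 _
      simp only [this]
    rw [Finset.sum_congr rfl h1]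
    have := sum_ite0 2 16 (by norm_num) (-1) 1
    push_cast at this
    rw [this]
    norm_num

lemma X2_two (A : ℕ) : su 2 (fun B C => gi 2 A B C * ch 2 A B C ^ 2) = 512 := by
  rw [← T_two' A, su_two, su_two]
  refine Finset.sum_congr rfl fun B _ => Finset.sum_congr rfl fun C _ => ?_
  rw [gi_two]
  by_cases h : (2 : ℤ) ∣ (B : ℤ)
  · rw [if_pos h, zero_mul]
  · rw [if_neg h, ch_two _ _ _ h]
    split_ifs <;> norm_num

lemma R_inner_two (q n : ℕ) (hq : 0 < q) (hqn : n * q = 32) (A : ℕ) (B j : ℤ) :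
    ∑ C ∈ Finset.range (16 * 2),
      gi 2 A B C * (if (q : ℤ) ∣ A * j ^ 2 + B * j + C then (1 : ℝ) else 0) =
      if (2 : ℤ) ∣ B then 0 else (n : ℝ) := by
  have h1 : ∀ C ∈ Finset.range (16 * 2),
      gi 2 A B C * (if (q : ℤ) ∣ A * j ^ 2 + B * j + C then (1 : ℝ) else 0) =
      (if (2 : ℤ) ∣ B then 0 else 1) *
        (if (q : ℤ) ∣ C + (A * j ^ 2 + B * j) then (1 : ℝ) else 0) := by
    intro C _
    rw [gi_two]
    have : (A : ℤ) * j ^ 2 + B * j + C = C + (A * j ^ 2 + B * j) := by ring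
    rw [this]
  have h32 : 16 * 2 = n * q := by omega
  rw [Finset.sum_congr rfl h1, ← Finset.mul_sum, h32, sum_ind q n hq]
  split_ifs <;> ring

lemma sum_B_two (n : ℝ) : ∑ B ∈ Finset.range (16 * 2),
    (if (2 : ℤ) ∣ (B : ℤ) then 0 else n) = 16 * n := by
  have := sum_ite0 2 16 (by norm_num) n 0
  push_cast at this
  rw [this]
  ring

lemma R_two (A : ℕ) : su 2 (fun B C => gi 2 A B C * nrt 2 A B C) = 512 := by
  rw [su_two]
  simp only [nrt_cast, Finset.mul_sum]
  rw [swap3]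
  simp only [R_inner_two 2 16 (by norm_num) (by norm_num) A]
  simp only [sum_B_two]
  simp
  norm_num

lemma R2_two (A : ℕ) : su 2 (fun B C => gi 2 A B C * nrt (2 ^ 2) A B C) = 512 := by
  rw [su_two]
  simp only [nrt_cast, Finset.mul_sum]
  rw [swap3]
  simp only [R_inner_two (2 ^ 2) 8 (by norm_num) (by norm_num) A]
  simp only [sum_B_two]
  simp
  norm_num

lemma RX_two (A : ℕ) : su 2 (fun B C => gi 2 A B C * ch 2 A B C * nrt 2 A B C) = 512 := by
  rw [← R_two A, su_two, su_two]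
  refine Finset.sum_congr rfl fun B _ => Finset.sum_congr rfl fun C _ => ?_
  rw [gi_two]
  by_cases h : (2 : ℤ) ∣ (B : ℤ)
  · rw [if_pos h]
    ring
  · rw [if_neg h, ch_two _ _ _ h]
    by_cases h1 : (2 : ℤ) ∣ A * C
    · rw [if_pos h1, one_mul]
    · have hn : nrt 2 A B C = 0 := by
        unfold nrt
        rw [Finset.card_eq_zero, Finset.filter_eq_empty_iff]
        intro j hj
        have hj' := Finset.mem_range.mp hj
        have hA : ¬ (2 : ℤ) ∣ (A : ℤ) := fun hA => h1 (Dvd.dvd.mul_right hA _)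
        have hC : ¬ (2 : ℤ) ∣ (C : ℤ) := fun hC => h1 (Dvd.dvd.mul_left hC _)
        interval_cases j
        · push_cast
          omega
        · push_cast
          omega
      rw [hn]
      simp

lemma Rp_two (A' : ℕ) : su 2 (fun B C => gi 2 ((2 * A' : ℕ) : ℤ) B C *
      nrt 2 ((2 * A' / 2 : ℕ) : ℤ) B (2 * C)) = if 2 ∣ A' then 512 else 1024 := by
  rw [su_two]
  rw [Nat.mul_div_cancel_left A' (by norm_num)]
  have h1 : ∀ B ∈ Finset.range (16 * 2), ∑ C ∈ Finset.range (16 * 2),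
      gi 2 ((2 * A' : ℕ) : ℤ) B C * (nrt 2 (A' : ℤ) B (2 * C) : ℝ) =
      if (2 : ℤ) ∣ (B : ℤ) then 0 else if 2 ∣ A' then (32 : ℝ) else 64 := by
    intro B _
    by_cases h : (2 : ℤ) ∣ (B : ℤ)
    · rw [if_pos h]
      refine Finset.sum_eq_zero fun C _ => ?_
      rw [gi_two, if_pos h, zero_mul]
    · rw [if_neg h]
      have h3 : ∀ C ∈ Finset.range (16 * 2),
          gi 2 ((2 * A' : ℕ) : ℤ) B C * (nrt 2 (A' : ℤ) B (2 * C) : ℝ) =
          if 2 ∣ A' then (1 : ℝ) else 2 := by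
        intro C _
        rw [gi_two, if_neg h, one_mul, nrt_cast, Finset.sum_range_succ, Finset.sum_range_succ,
          Finset.sum_range_zero]
        rw [if_pos (by push_cast; omega)]
        by_cases hA : 2 ∣ A'
        · rw [if_pos hA, if_neg (by push_cast; omega)]
          norm_num
        · rw [if_neg hA, if_pos (by push_cast; omega)]
          norm_num
      rw [Finset.sum_congr rfl h3]
      split_ifs <;> simp <;> norm_num
  rw [Finset.sum_congr rfl h1, sum_B_two]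
  split_ifs <;> norm_num

end Pool.Agent.H96.CN
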